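import Pool.Agent.Helper15.T5.Stmts

/-! Module TLB of t5_mods: masses of the tilted law. -/

set_option autoImplicit false

open Finset MeasureTheory Filter Topology

namespace Pool.Agent.Helper76.T5.TLB

open Pool.Agent.Helper15.T4 Pool.Agent.Helper46.T5 Pool.Agent.Helper15.T5

theorem cov_card {H : Type} [Fintype H] {F : Finset (Sym2 H)} (hF : IsMat F) :
    (cov F).card = 2 * F.card := by
  classical
  obtain ⟨h1, h2, h3⟩ := hF
  have hc : cov F = F.biUnion (fun e => e.toFinset) := by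
    ext h
    rw [Finset.mem_biUnion]
    unfold cov
    rw [Finset.mem_filter]
    constructor
    · rintro ⟨_, e, he, hh⟩
      exact ⟨e, he, Sym2.mem_toFinset.2 hh⟩
    · rintro ⟨e, he, hh⟩
      exact ⟨Finset.mem_univ _, e, he, Sym2.mem_toFinset.1 hh⟩
  rw [hc, Finset.card_biUnion]
  · rw [Finset.sum_congr rfl (fun e he => Sym2.card_toFinset_of_not_isDiag e (h1 e he)),
      Finset.sum_const, smul_eq_mul, mul_comm]
  · intro e he e' he' hne
    rw [Function.onFun, Finset.disjoint_left]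
    intro h hh hh'
    rw [Sym2.mem_toFinset] at hh hh'
    have hcov : h ∈ cov F := h2 e he h hh
    obtain ⟨e0, _, hu⟩ := h3 h hcov
    exact hne ((hu e ⟨he, hh⟩).trans (hu e' ⟨he', hh'⟩).symm)

theorem tv_card {n : ℕ} {F : Finset (Sym2 (HE n))} (hF : IsMat F) :
    (tv F).card ≤ 2 * F.card ∧ 2 * F.card ≤ 3 * (tv F).card := by
  classical
  have hc := cov_card hF
  constructor
  · rw [← hc]
    unfold tv
    exact Finset.card_image_le
  · rw [← hc]
    have h : cov F ⊆ tv F ×ˢ (univ : Finset (Fin 3)) := by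
      intro h hh
      rw [Finset.mem_product]
      refine ⟨?_, Finset.mem_univ _⟩
      unfold tv
      exact Finset.mem_image_of_mem _ hh
    have h' := Finset.card_le_card h
    rw [Finset.card_product, Finset.card_univ, Fintype.card_fin] at h'
    omega

section intg

variable {ι : Type} [Fintype ι]

theorem nsq_nonneg (x : ι → ℝ) : 0 ≤ nsq x := Finset.sum_nonneg fun _ _ => sq_nonneg _

theorem nsq_cont : Continuous (fun x : ι → ℝ => nsq x) := by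
  unfold nsq
  fun_prop

theorem exp_int : Integrable (fun x : ι → ℝ => Real.exp (-(nsq x) / 4)) := by
  have h : Integrable (fun x : ι → ℝ => ∏ i, Real.exp (-(1 / 4) * (x i) ^ 2)) :=
    Integrable.fintype_prod (f := fun _ : ι => fun t : ℝ => Real.exp (-(1 / 4) * t ^ 2))
      (fun _ => integrable_exp_neg_mul_sq (by norm_num))
  refine h.congr (Filter.Eventually.of_forall fun x => ?_)
  change ∏ i, Real.exp (-(1 / 4) * (x i) ^ 2) = Real.exp (-(nsq x) / 4)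
  rw [← Real.exp_sum]
  congr 1
  unfold nsq
  rw [← Finset.mul_sum]
  ring

theorem pow_le (m : ℕ) (s : ℝ) (hs : 0 ≤ s) :
    s ^ m * Real.exp (-(s ^ 2) / 2) ≤ (m.factorial : ℝ) * Real.exp 1 *
      Real.exp (-(s ^ 2) / 4) := by
  have h1 : s ^ m ≤ (m.factorial : ℝ) * Real.exp s := by
    have := Real.pow_div_factorial_le_exp s hs m
    rw [div_le_iff₀ (by positivity)] at this
    linarith
  have h2 : Real.exp s * Real.exp (-(s ^ 2) / 2) ≤ Real.exp 1 * Real.exp (-(s ^ 2) / 4) := by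
    rw [← Real.exp_add, ← Real.exp_add]
    apply Real.exp_le_exp.2
    nlinarith [sq_nonneg (s / 2 - 1)]
  have h3 : (0 : ℝ) ≤ (m.factorial : ℝ) := by positivity
  calc s ^ m * Real.exp (-(s ^ 2) / 2) ≤ (m.factorial : ℝ) * Real.exp s *
        Real.exp (-(s ^ 2) / 2) := mul_le_mul_of_nonneg_right h1 (Real.exp_pos _).le
    _ = (m.factorial : ℝ) * (Real.exp s * Real.exp (-(s ^ 2) / 2)) := by ring
    _ ≤ (m.factorial : ℝ) * (Real.exp 1 * Real.exp (-(s ^ 2) / 4)) :=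
        mul_le_mul_of_nonneg_left h2 h3
    _ = _ := by ring

theorem mom_int {P : (ι → ℝ) → ℝ} {q : ℝ} (hP : MaxQ P q) (a b : ℕ) :
    Integrable (fun x : ι → ℝ => |P x| ^ a * Real.sqrt (nsq x) ^ b * Real.exp (-(nsq x) / 2)) := by
  have hcont : Continuous (fun x : ι → ℝ => |P x| ^ a * Real.sqrt (nsq x) ^ b *
      Real.exp (-(nsq x) / 2)) := by
    have h1 := hP.cont
    have h2 := nsq_cont (ι := ι)
    fun_prop
  refine Integrable.mono' ((exp_int (ι := ι)).const_mul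
    (q ^ a * (((3 * a + b).factorial : ℝ) * Real.exp 1))) hcont.aestronglyMeasurable
    (Filter.Eventually.of_forall fun x => ?_)
  have hs0 := Real.sqrt_nonneg (nsq x)
  have hs2 : Real.sqrt (nsq x) ^ 2 = nsq x := Real.sq_sqrt (nsq_nonneg x)
  rw [Real.norm_of_nonneg (by positivity)]
  have h1 : |P x| ^ a ≤ (q * Real.sqrt (nsq x) ^ 3) ^ a :=
    pow_le_pow_left₀ (abs_nonneg _) (hP.le x) a
  have h2 := pow_le (3 * a + b) (Real.sqrt (nsq x)) hs0
  rw [hs2] at h2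
  have hq : 0 ≤ q ^ a := pow_nonneg hP.q0.le a
  calc |P x| ^ a * Real.sqrt (nsq x) ^ b * Real.exp (-(nsq x) / 2)
      ≤ (q * Real.sqrt (nsq x) ^ 3) ^ a * Real.sqrt (nsq x) ^ b * Real.exp (-(nsq x) / 2) := by
        gcongr
    _ = q ^ a * (Real.sqrt (nsq x) ^ (3 * a + b) * Real.exp (-(nsq x) / 2)) := by
        rw [mul_pow, ← pow_mul, pow_add]
        ring
    _ ≤ q ^ a * (((3 * a + b).factorial : ℝ) * Real.exp 1 * Real.exp (-(nsq x) / 4)) :=
        mul_le_mul_of_nonneg_left h2 hq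
    _ = _ := by ring

theorem GI_le {P : (ι → ℝ) → ℝ} {q : ℝ} (hP : MaxQ P q)
    (φ : (ι → ℝ) → ℂ) (a b : ℕ) (K : ℝ)
    (h : ∀ x, ‖φ x‖ ≤ |P x| ^ a * K * Real.sqrt (nsq x) ^ b) :
    ‖GI φ‖ ≤ (2 * Real.pi) ^ (-(Fintype.card ι : ℝ) / 2) * (K * ∫ x : ι → ℝ,
      |P x| ^ a * Real.sqrt (nsq x) ^ b * Real.exp (-(nsq x) / 2)) := by
  unfold GI
  have hp : (0 : ℝ) ≤ (2 * Real.pi) ^ (-(Fintype.card ι : ℝ) / 2) := by positivity
  rw [norm_mul, Complex.norm_real, Real.norm_of_nonneg hp, ← integral_const_mul]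
  refine mul_le_mul_of_nonneg_left ?_ hp
  refine norm_integral_le_of_norm_le ((mom_int hP a b).const_mul K)
    (Filter.Eventually.of_forall fun x => ?_)
  rw [norm_mul, Complex.norm_real, Real.norm_of_nonneg (Real.exp_pos _).le]
  calc ‖φ x‖ * Real.exp (-(nsq x) / 2) ≤ |P x| ^ a * K * Real.sqrt (nsq x) ^ b *
        Real.exp (-(nsq x) / 2) := mul_le_mul_of_nonneg_right (h x) (Real.exp_pos _).le
    _ = _ := by ring

end intg

theorem st_TLB (hSUMX : ST_SUMX) (hPSIB : ST_PSIB) (hXZ : ST_XZ) (hMJ : ST_MJ) (hZM : ST_ZM)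
    (hPQ : ST_PQ) (hSOFB : ST_SOFB) : ST_TLB := by
  classical
  intro K f
  obtain ⟨B, hB1, hB⟩ := hPSIB _ _ (mJ (Fin K × Fin 2))
  obtain ⟨hMax, _⟩ := hPQ K
  obtain ⟨hpos, hbd⟩ := hSOFB (Fin K × Fin 2 → Fin 3) _ _ hMax
  have hA : ∀ v : ℕ, ∃ C : ℝ, 2 * f ≤ 3 * v → ∀ᶠ N : ℕ in atTop,
      (∫ x : (Fin K × Fin 2 → Fin 3) → ℝ, |TJ (Fin K × Fin 2) x x x| ^ (2 * N - v) *
        Real.sqrt (nsq x) ^ (3 * v - 2 * f) *
        Real.exp (-(nsq x) / 2)) * (6 * (N : ℝ)) ^ f ≤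
        C * ∫ x : (Fin K × Fin 2 → Fin 3) → ℝ, TJ (Fin K × Fin 2) x x x ^ (2 * N) *
          Real.exp (-(nsq x) / 2) := by
    intro v
    by_cases hv : 2 * f ≤ 3 * v
    · obtain ⟨C, hC⟩ := hbd v f hv
      exact ⟨C, fun _ => hC⟩
    · exact ⟨0, fun h => absurd h hv⟩
  choose C hC using hA
  refine ⟨∑ v ∈ range (2 * f + 1), B ^ v * |C v|, ?_⟩
  have hev1 : ∀ᶠ N : ℕ in atTop, ∀ v ∈ range (2 * f + 1), 2 * f ≤ 3 * v →
      (∫ x : (Fin K × Fin 2 → Fin 3) → ℝ, |TJ (Fin K × Fin 2) x x x| ^ (2 * N - v) *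
        Real.sqrt (nsq x) ^ (3 * v - 2 * f) *
        Real.exp (-(nsq x) / 2)) * (6 * (N : ℝ)) ^ f ≤
        C v * ∫ x : (Fin K × Fin 2 → Fin 3) → ℝ, TJ (Fin K × Fin 2) x x x ^ (2 * N) *
          Real.exp (-(nsq x) / 2) := by
    rw [Filter.eventually_all_finset]
    intro v _
    by_cases hv : 2 * f ≤ 3 * v
    · filter_upwards [hC v hv] with N hN _
      exact hN
    · exact Filter.Eventually.of_forall fun N h => absurd h hv
  filter_upwards [hev1, Filter.eventually_gt_atTop 0] with N h1 hN F hF hFf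
  have hN' : (0 : ℝ) < N := by exact_mod_cast hN
  obtain ⟨κ, hκ⟩ : ∃ κ : ℝ, κ = (2 * Real.pi) ^
    (-(Fintype.card (Fin K × Fin 2 → Fin 3) : ℝ) / 2) := ⟨_, rfl⟩
  have hκ0 : 0 < κ := by
    rw [hκ]
    positivity
  obtain ⟨J, hJ⟩ : ∃ J : ℝ, J = ∫ x : (Fin K × Fin 2 → Fin 3) → ℝ,
    TJ (Fin K × Fin 2) x x x ^ (2 * N) * Real.exp (-(nsq x) / 2) := ⟨_, rfl⟩
  have hJ0 : 0 < J := by
    rw [hJ]
    exact hpos N
  obtain ⟨S, hS⟩ : ∃ S : ℝ, S = ∑ M ∈ PM (univ : Finset (HE (2 * N))),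
    ((Zc M : ℤ) : ℝ) ^ (2 * K) := ⟨_, rfl⟩
  have hSJ : S = κ * J := by
    rw [hS, hκ, hJ]
    exact hZM K (2 * N)
  have hSpos : 0 < S := by
    rw [hSJ]
    positivity
  obtain ⟨Y, hY⟩ : ∃ Y : ℝ, Y = ∑ M ∈ (PM (univ : Finset (HE (2 * N)))).filter
      (fun M => F ⊆ M), ((Zc M : ℤ) : ℝ) ^ (2 * K) := ⟨_, rfl⟩
  have hY0 : 0 ≤ Y := by
    rw [hY]
    exact Finset.sum_nonneg fun x _ => by
      rw [pow_mul]
      positivity
  have hmass : mass (WK K N) F = Y / S := by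
    unfold mass WK
    rw [← Finset.sum_div, ← hS]
    congr 1
    rw [hY]
  have hYG : ((Y : ℝ) : ℂ) = GI ((mJ (Fin K × Fin 2)).Psi F) := by
    rw [← hSUMX _ _ (mJ (Fin K × Fin 2)) (2 * N) F hF, hY]
    push_cast
    refine Finset.sum_congr ?_ fun M _ => ?_
    · ext M
      simp
    · rw [hXZ, Fintype.card_prod, Fintype.card_fin, Fintype.card_fin, mul_comm K 2]
  obtain ⟨hv1, hv2⟩ := tv_card hF
  rw [hFf] at hv1 hv2
  obtain ⟨v, hv⟩ : ∃ v, v = (tv F).card := ⟨_, rfl⟩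
  rw [← hv] at hv1 hv2
  have hGI := GI_le hMax ((mJ (Fin K × Fin 2)).Psi F) (2 * N - v) (3 * v - 2 * f) (B ^ v)
    (fun x => by
      have := hB (2 * N) F x hF
      rw [← hv, hFf] at this
      have hP : (mJ (Fin K × Fin 2)).P x = ((TJ (Fin K × Fin 2) x x x : ℝ) : ℂ) :=
        (hMJ (Fin K × Fin 2)).2.2.1 x x x
      rw [hP, Complex.norm_real, Real.norm_eq_abs] at this
      exact this)
  rw [← hYG, Complex.norm_real, Real.norm_of_nonneg hY0, ← hκ] at hGI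
  have h3 := h1 v (Finset.mem_range.2 (by omega)) hv2
  rw [← hJ] at h3
  obtain ⟨I, hI⟩ : ∃ I : ℝ, I = ∫ x : (Fin K × Fin 2 → Fin 3) → ℝ,
    |TJ (Fin K × Fin 2) x x x| ^ (2 * N - v) *
    Real.sqrt (nsq x) ^ (3 * v - 2 * f) * Real.exp (-(nsq x) / 2) := ⟨_, rfl⟩
  rw [← hI] at hGI h3
  have hB0 : 0 ≤ B ^ v := pow_nonneg (by linarith) v
  have h4 : I * (6 * (N : ℝ)) ^ f ≤ |C v| * J :=
    h3.trans (mul_le_mul_of_nonneg_right (le_abs_self _) hJ0.le)
  have h6 : (2 * (N : ℝ)) ^ f ≤ (6 * (N : ℝ)) ^ f :=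
    pow_le_pow_left₀ (by positivity) (by linarith) f
  have h2N : (0 : ℝ) < (2 * (N : ℝ)) ^ f := by positivity
  have h5 : Y * (2 * (N : ℝ)) ^ f ≤ B ^ v * |C v| * S := by
    calc Y * (2 * (N : ℝ)) ^ f ≤ Y * (6 * (N : ℝ)) ^ f := mul_le_mul_of_nonneg_left h6 hY0
      _ ≤ κ * (B ^ v * I) * (6 * (N : ℝ)) ^ f :=
          mul_le_mul_of_nonneg_right hGI (by positivity)
      _ = κ * B ^ v * (I * (6 * (N : ℝ)) ^ f) := by ring
      _ ≤ κ * B ^ v * (|C v| * J) :=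
          mul_le_mul_of_nonneg_left h4 (mul_nonneg hκ0.le hB0)
      _ = B ^ v * |C v| * S := by
          rw [hSJ]
          ring
  have h7 : B ^ v * |C v| ≤ ∑ v ∈ range (2 * f + 1), B ^ v * |C v| := by
    refine Finset.single_le_sum (f := fun v => B ^ v * |C v|) (fun w _ => ?_)
      (Finset.mem_range.2 (by omega))
    have : 0 ≤ B ^ w := pow_nonneg (by linarith) w
    positivity
  rw [hmass, le_div_iff₀ h2N, div_mul_eq_mul_div, div_le_iff₀ hSpos]
  exact h5.trans (mul_le_mul_of_nonneg_right h7 hSpos.le)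

end Pool.Agent.Helper76.T5.TLB
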