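import Pool.Agent.Helper76.T5.Quat

/-!
# The average over rotations: change of variables to Gaussian quaternions
-/

set_option autoImplicit false

open Finset MeasureTheory
open scoped ENNReal

namespace Pool.Agent.Helper76.T5

open Pool.Agent.Helper15.T4 Pool.Agent.Helper46.T5

/-! ### products of densities -/

theorem pi_withDensity {ι : Type} [Fintype ι] {E : Type} [MeasureSpace E]
    [SigmaFinite (volume : Measure E)] {f : E → ℝ} (hf : Measurable f) (h0 : ∀ x, 0 ≤ f x)
    (hi : Integrable f) :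
    (Measure.pi fun _ : ι => (volume : Measure E).withDensity fun x => ENNReal.ofReal (f x))
      = (volume : Measure (ι → E)).withDensity fun x => ENNReal.ofReal (∏ i, f (x i)) := by
  haveI : IsFiniteMeasure ((volume : Measure E).withDensity fun x => ENNReal.ofReal (f x)) :=
    isFiniteMeasure_withDensity_ofReal hi.2
  refine Measure.pi_eq (fun s hs => ?_)
  have hpm : Measurable fun x : ι → E => ∏ i, f (x i) :=
    Finset.measurable_prod _ fun i _ => hf.comp (measurable_pi_apply i)
  rw [withDensity_apply _ (MeasurableSet.univ_pi hs)]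
  have e1 : ∀ i, (volume.withDensity fun x => ENNReal.ofReal (f x)) (s i)
      = ENNReal.ofReal (∫ x in s i, f x) := by
    intro i
    rw [withDensity_apply _ (hs i), ofReal_integral_eq_lintegral_ofReal hi.integrableOn
      (ae_of_all _ h0)]
  rw [Finset.prod_congr rfl fun i _ => e1 i, ← ENNReal.ofReal_prod_of_nonneg
    (fun i _ => setIntegral_nonneg (hs i) fun x _ => h0 x)]
  have hint : Integrable fun x : ι → E => ∏ i, f (x i) :=
    Integrable.fintype_prod (f := fun _ : ι => f) fun _ => hi
  rw [← ofReal_integral_eq_lintegral_ofReal hint.integrableOn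
    (ae_of_all _ fun x => Finset.prod_nonneg fun i _ => h0 _)]
  congr 1
  rw [← integral_indicator (MeasurableSet.univ_pi hs)]
  have e2 : (fun x : ι → E => (Set.univ.pi s).indicator (fun x => ∏ i, f (x i)) x)
      = fun x : ι → E => ∏ i, (s i).indicator f (x i) := by
    funext x
    by_cases hx : x ∈ Set.univ.pi s
    · rw [Set.indicator_of_mem hx]
      refine Finset.prod_congr rfl fun i _ => ?_
      rw [Set.indicator_of_mem (hx i (Set.mem_univ i))]
    · rw [Set.indicator_of_notMem hx]
      rw [Set.mem_univ_pi] at hx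
      push Not at hx
      obtain ⟨i, hi'⟩ := hx
      exact (Finset.prod_eq_zero (Finset.mem_univ i) (Set.indicator_of_notMem hi' f)).symm
  rw [e2, integral_fintype_prod_volume_eq_prod (fun i => (s i).indicator f)]
  exact Finset.prod_congr rfl fun i _ => integral_indicator (hs i)

/-! ### the density `rho` and the Gaussian on `ℝ⁴` -/

/-- the Gaussian density on the quaternions -/
noncomputable def gq (q : Fin 4 → ℝ) : ℝ := Real.exp (-(nsq q) / 2) / (4 * Real.pi ^ 2)

theorem measurable_nsq {n : ℕ} : Measurable (fun q : Fin n → ℝ => nsq q) := by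
  unfold nsq
  exact Finset.measurable_sum _ fun i _ => (measurable_pi_apply i).pow_const 2

theorem measurable_gq : Measurable gq := by
  unfold gq
  exact ((measurable_nsq.neg.div_const 2).exp).div_const _

theorem gq_nonneg (q : Fin 4 → ℝ) : 0 ≤ gq q := by
  unfold gq
  positivity

theorem integral_gq : ∫ q : Fin 4 → ℝ, gq q = 1 := by
  unfold gq
  rw [integral_div]
  have e1 : (fun q : Fin 4 → ℝ => Real.exp (-(nsq q) / 2))
      = fun q : Fin 4 → ℝ => ∏ i, Real.exp (-(1 / 2) * (q i) ^ 2) := by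
    funext q
    rw [← Real.exp_sum]
    congr 1
    unfold nsq
    rw [← Finset.mul_sum]
    ring
  rw [e1, integral_fintype_prod_volume_eq_pow (fun x : ℝ => Real.exp (-(1 / 2) * x ^ 2)),
    integral_gaussian, Fintype.card_fin]
  have h2 : Real.sqrt (Real.pi / (1 / 2)) ^ 4 = (2 * Real.pi) ^ 2 := by
    have h3 : Real.sqrt (Real.pi / (1 / 2)) ^ 4 = (Real.sqrt (Real.pi / (1 / 2)) ^ 2) ^ 2 := by
      ring
    rw [h3, Real.sq_sqrt (by positivity)]
    ring
  rw [h2, div_eq_one_iff_eq (by positivity)]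
  ring

theorem integrable_gq : Integrable gq := by
  by_contra hc
  have := integral_undef hc
  rw [integral_gq] at this
  exact one_ne_zero this

theorem rho_nonneg (v : Fin 3 → ℝ) : 0 ≤ rho v := by
  unfold rho
  positivity

theorem measurable_rho : Measurable rho := by
  unfold rho
  exact (((measurable_nsq.const_add 1).pow_const 2).const_mul _).inv

/-- the chart -/
noncomputable def cq (q : Fin 4 → ℝ) : Fin 3 → ℝ := fun i => (q 0)⁻¹ * q i.succ

theorem measurable_cq : Measurable cq := by
  refine measurable_pi_iff.2 fun i => ?_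
  exact (measurable_pi_apply 0).inv.mul (measurable_pi_apply _)

/-- one dimensional integral -/
theorem integral_cube {a : ℝ} (ha : 0 < a) :
    ∫ t : ℝ, |t| ^ 3 * Real.exp (-(a * t ^ 2) / 2) = 4 / a ^ 2 := by
  have e1 : (fun t : ℝ => |t| ^ 3 * Real.exp (-(a * t ^ 2) / 2))
      = fun t : ℝ => (fun s : ℝ => s ^ 3 * Real.exp (-(a * s ^ 2) / 2)) |t| := by
    funext t
    simp only [sq_abs]
  rw [e1, integral_comp_abs (f := fun s : ℝ => s ^ 3 * Real.exp (-(a * s ^ 2) / 2))]
  have h := integral_rpow_mul_exp_neg_mul_rpow (p := 2) (q := 3) (b := a / 2) (by norm_num)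
    (by norm_num) (by positivity)
  have e2 : ∫ x in Set.Ioi (0 : ℝ), x ^ 3 * Real.exp (-(a * x ^ 2) / 2)
      = ∫ x in Set.Ioi (0 : ℝ), x ^ (3 : ℝ) * Real.exp (-(a / 2) * x ^ (2 : ℝ)) := by
    refine setIntegral_congr_fun measurableSet_Ioi fun x _ => ?_
    have h3 : x ^ (3 : ℝ) = x ^ 3 := by
      rw [← Real.rpow_natCast]; norm_num
    have h2 : x ^ (2 : ℝ) = x ^ 2 := by
      rw [← Real.rpow_natCast]; norm_num
    simp only [h3, h2]
    congr 2
    ring
  rw [e2, h]
  have h4 : (-(3 + 1) / 2 : ℝ) = -(2 : ℕ) := by norm_num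
  have h5 : ((3 : ℝ) + 1) / 2 = 1 + 1 := by norm_num
  rw [h4, h5, Real.rpow_neg (by positivity), Real.rpow_natCast, Real.Gamma_add_one one_ne_zero,
    Real.Gamma_one]
  field_simp
  ring

theorem lintegral_cube {a : ℝ} (ha : 0 < a) :
    ∫⁻ t : ℝ, ENNReal.ofReal (|t| ^ 3 * Real.exp (-(a * t ^ 2) / 2)) = ENNReal.ofReal (4 / a ^ 2) := by
  have h := integral_cube ha
  have hi : Integrable fun t : ℝ => |t| ^ 3 * Real.exp (-(a * t ^ 2) / 2) := by
    by_contra hc
    have := integral_undef hc
    rw [h] at this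
    have : 0 < 4 / a ^ 2 := by positivity
    linarith
  rw [← h, ofReal_integral_eq_lintegral_ofReal hi (ae_of_all _ fun t => by positivity)]

theorem lintegral_scale (f : (Fin 3 → ℝ) → ℝ≥0∞) (hf : Measurable f) {t : ℝ} (ht : t ≠ 0) :
    ∫⁻ w : Fin 3 → ℝ, f (t⁻¹ • w) = ENNReal.ofReal (|t| ^ 3) * ∫⁻ v : Fin 3 → ℝ, f v := by
  have h := Measure.map_addHaar_smul (volume : Measure (Fin 3 → ℝ)) (r := t⁻¹) (inv_ne_zero ht)
  have hm : Measurable fun w : Fin 3 → ℝ => t⁻¹ • w := measurable_const_smul _
  rw [← lintegral_map hf hm, h, lintegral_smul_measure]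
  congr 1
  congr 1
  rw [Module.finrank_fintype_fun_eq_card, Fintype.card_fin, inv_pow, inv_inv, abs_pow]

/-- the change of variables -/
theorem lintegral_cq (F : (Fin 3 → ℝ) → ℝ≥0∞) (hF : Measurable F) :
    ∫⁻ q : Fin 4 → ℝ, F (cq q) * ENNReal.ofReal (gq q)
      = ∫⁻ v : Fin 3 → ℝ, F v * ENNReal.ofReal (rho v) := by
  -- splitting off the first coordinate
  set G : ℝ × (Fin 3 → ℝ) → ℝ≥0∞ := fun p =>
    F (p.1⁻¹ • p.2) * ENNReal.ofReal (Real.exp (-(p.1 ^ 2 + nsq p.2) / 2) / (4 * Real.pi ^ 2))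
    with hG
  have hGm : Measurable G := by
    refine Measurable.mul (hF.comp ?_) ?_
    · exact measurable_fst.inv.smul measurable_snd
    · refine ENNReal.measurable_ofReal.comp ((Measurable.exp ?_).div_const _)
      exact (((measurable_fst.pow_const 2).add (measurable_nsq.comp measurable_snd)).neg).div_const 2
  have mp := volume_preserving_piFinSuccAbove (fun _ : Fin 4 => ℝ) 0
  have e1 : ∫⁻ q : Fin 4 → ℝ, F (cq q) * ENNReal.ofReal (gq q)
      = ∫⁻ p : ℝ × (Fin 3 → ℝ), G p := by
    rw [← mp.lintegral_comp hGm]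
    refine lintegral_congr fun q => ?_
    have h1 : (MeasurableEquiv.piFinSuccAbove (fun _ : Fin 4 => ℝ) 0 q).1 = q 0 := rfl
    have h2 : (MeasurableEquiv.piFinSuccAbove (fun _ : Fin 4 => ℝ) 0 q).2 = fun i => q i.succ := by
      funext i
      simp [MeasurableEquiv.piFinSuccAbove, Fin.tail]
    simp only [hG, h1, h2]
    congr 1
  rw [e1]
  have hvol : (volume : Measure (ℝ × (Fin 3 → ℝ))) = (volume : Measure ℝ).prod volume := rfl
  rw [hvol, lintegral_prod _ hGm.aemeasurable]
  -- the inner integral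
  have e2 : ∀ t : ℝ, t ≠ 0 → ∫⁻ w : Fin 3 → ℝ, G (t, w) = ∫⁻ v : Fin 3 → ℝ,
      F v * ENNReal.ofReal (|t| ^ 3 * Real.exp (-((1 + nsq v) * t ^ 2) / 2) / (4 * Real.pi ^ 2)) := by
    intro t ht
    set f : (Fin 3 → ℝ) → ℝ≥0∞ := fun v =>
      F v * ENNReal.ofReal (Real.exp (-((1 + nsq v) * t ^ 2) / 2) / (4 * Real.pi ^ 2)) with hf
    have hfm : Measurable f := by
      refine hF.mul (ENNReal.measurable_ofReal.comp ((Measurable.exp ?_).div_const _))
      exact (((measurable_nsq.const_add 1).mul_const _).neg).div_const 2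
    have h1 : ∀ w : Fin 3 → ℝ, G (t, w) = f (t⁻¹ • w) := by
      intro w
      simp only [hG, hf]
      congr 4
      have : nsq (t⁻¹ • w) = (t ^ 2)⁻¹ * nsq w := by
        rw [nsq3, nsq3]
        simp only [Pi.smul_apply, smul_eq_mul]
        ring
      rw [this]
      field_simp
    rw [lintegral_congr h1, lintegral_scale f hfm ht, ← lintegral_const_mul _ hfm]
    refine lintegral_congr fun v => ?_
    simp only [hf]
    rw [mul_left_comm, ← ENNReal.ofReal_mul (by positivity)]
    congr 2
    ring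
  have e3 : ∫⁻ t : ℝ, ∫⁻ w : Fin 3 → ℝ, G (t, w) = ∫⁻ t : ℝ, ∫⁻ v : Fin 3 → ℝ,
      F v * ENNReal.ofReal (|t| ^ 3 * Real.exp (-((1 + nsq v) * t ^ 2) / 2) / (4 * Real.pi ^ 2)) := by
    refine lintegral_congr_ae ?_
    have h0 : ∀ᵐ t : ℝ, t ≠ 0 := by
      have : (volume : Measure ℝ) {0} = 0 := Real.volume_singleton
      rw [ae_iff]
      simpa using this
    filter_upwards [h0] with t ht
    exact e2 t ht
  rw [e3, lintegral_lintegral_swap]
  · refine lintegral_congr fun v => ?_
    have hpos : 0 < 1 + nsq v := by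
      have := nsq_nonneg' v
      positivity
    have hmt : Measurable fun t : ℝ =>
        ENNReal.ofReal (|t| ^ 3 * Real.exp (-((1 + nsq v) * t ^ 2) / 2)) := by
      refine ENNReal.measurable_ofReal.comp ((measurable_id.abs.pow_const 3).mul (Measurable.exp ?_))
      exact (((measurable_id.pow_const 2).const_mul _).neg).div_const 2
    have h1 : ∀ t : ℝ, F v * ENNReal.ofReal (|t| ^ 3 * Real.exp (-((1 + nsq v) * t ^ 2) / 2)
        / (4 * Real.pi ^ 2)) = (F v * ENNReal.ofReal (1 / (4 * Real.pi ^ 2)))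
          * ENNReal.ofReal (|t| ^ 3 * Real.exp (-((1 + nsq v) * t ^ 2) / 2)) := by
      intro t
      rw [mul_assoc, ← ENNReal.ofReal_mul (by positivity)]
      congr 2
      ring
    rw [lintegral_congr h1, lintegral_const_mul _ hmt, lintegral_cube hpos, mul_assoc,
      ← ENNReal.ofReal_mul (by positivity)]
    congr 2
    unfold rho
    have hpi : Real.pi ≠ 0 := Real.pi_ne_zero
    field_simp
  · refine Measurable.aemeasurable ?_
    refine (hF.comp measurable_snd).mul (ENNReal.measurable_ofReal.comp ?_)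
    refine Measurable.div_const ((measurable_fst.abs.pow_const 3).mul (Measurable.exp ?_)) _
    exact ((((measurable_nsq.comp measurable_snd).const_add 1).mul
      (measurable_fst.pow_const 2)).neg).div_const 2

theorem lintegral_rho : ∫⁻ v : Fin 3 → ℝ, ENNReal.ofReal (rho v) = 1 := by
  have h := lintegral_cq (fun _ => 1) measurable_const
  simp only [one_mul] at h
  rw [← h, ← ofReal_integral_eq_lintegral_ofReal integrable_gq (ae_of_all _ gq_nonneg),
    integral_gq, ENNReal.ofReal_one]

theorem integrable_rho : Integrable rho := by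
  refine ⟨measurable_rho.aestronglyMeasurable, ?_⟩
  rw [hasFiniteIntegral_iff_ofReal (ae_of_all _ rho_nonneg), lintegral_rho]
  exact ENNReal.one_lt_top

theorem integral_rho : ∫ v : Fin 3 → ℝ, rho v = 1 := by
  rw [integral_eq_lintegral_of_nonneg_ae (ae_of_all _ rho_nonneg)
    measurable_rho.aestronglyMeasurable, lintegral_rho, ENNReal.toReal_one]

/-- the probability measure on the chart -/
noncomputable def mu3 : Measure (Fin 3 → ℝ) := volume.withDensity fun v => ENNReal.ofReal (rho v)

/-- the Gaussian probability measure on the quaternions -/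
noncomputable def mu4 : Measure (Fin 4 → ℝ) := volume.withDensity fun v => ENNReal.ofReal (gq v)

instance : IsProbabilityMeasure mu3 := ⟨by
  unfold mu3
  rw [withDensity_apply _ MeasurableSet.univ, Measure.restrict_univ, lintegral_rho]⟩

instance : IsProbabilityMeasure mu4 := ⟨by
  unfold mu4
  rw [withDensity_apply _ MeasurableSet.univ, Measure.restrict_univ,
    ← ofReal_integral_eq_lintegral_ofReal integrable_gq (ae_of_all _ gq_nonneg),
    integral_gq, ENNReal.ofReal_one]⟩

/-- (MAP) -/
theorem map_cq : mu4.map cq = mu3 := by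
  ext s hs
  rw [Measure.map_apply measurable_cq hs]
  unfold mu3 mu4
  rw [withDensity_apply _ (measurable_cq hs), withDensity_apply _ hs,
    ← lintegral_indicator (measurable_cq hs), ← lintegral_indicator hs]
  have h := lintegral_cq (s.indicator fun _ => 1) (measurable_const.indicator hs)
  have e1 : ∀ q : Fin 4 → ℝ, (cq ⁻¹' s).indicator (fun q => ENNReal.ofReal (gq q)) q
      = s.indicator (fun _ => 1) (cq q) * ENNReal.ofReal (gq q) := by
    intro q
    by_cases hq : cq q ∈ s
    · rw [Set.indicator_of_mem (show q ∈ cq ⁻¹' s from hq), Set.indicator_of_mem hq, one_mul]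
    · rw [Set.indicator_of_notMem (show q ∉ cq ⁻¹' s from hq), Set.indicator_of_notMem hq, zero_mul]
  have e2 : ∀ v : Fin 3 → ℝ, s.indicator (fun v => ENNReal.ofReal (rho v)) v
      = s.indicator (fun _ => 1) v * ENNReal.ofReal (rho v) := by
    intro v
    by_cases hv : v ∈ s
    · rw [Set.indicator_of_mem hv, Set.indicator_of_mem hv, one_mul]
    · rw [Set.indicator_of_notMem hv, Set.indicator_of_notMem hv, zero_mul]
  rw [lintegral_congr e1, lintegral_congr e2, h]

theorem measurePreserving_cq : MeasurePreserving cq mu4 mu3 := ⟨measurable_cq, map_cq⟩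

/-- `Rq` in the chart -/
theorem Rq_eq_Cay {q : Fin 4 → ℝ} (hq : q 0 ≠ 0) : Rq q = Cay (cq q) := by
  rw [Cay_eq]
  have : q = (q 0) • q1v (cq q) := by
    funext i
    fin_cases i <;> simp [q1v, cq] <;> field_simp
  conv_lhs => rw [this]
  rw [Rq_smul hq]

/-! ### the product measures -/

theorem AV_eq {K : ℕ} (G : (Fin K → M3) → ℝ) :
    AV K G = ∫ v : Fin K → Fin 3 → ℝ, G (fun p => Cay (v p)) ∂(Measure.pi fun _ : Fin K => mu3) := by
  unfold AV mu3
  rw [pi_withDensity measurable_rho rho_nonneg integrable_rho,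
    integral_withDensity_eq_integral_toReal_smul]
  · refine integral_congr_ae (ae_of_all _ fun v => ?_)
    simp only [smul_eq_mul]
    rw [ENNReal.toReal_ofReal (Finset.prod_nonneg fun p _ => rho_nonneg _), mul_comm]
  · exact ENNReal.measurable_ofReal.comp (Finset.measurable_prod _ fun p _ =>
      measurable_rho.comp (measurable_pi_apply p))
  · exact ae_of_all _ fun v => ENNReal.ofReal_lt_top

/-- **AV1** -/
theorem AV_one (K : ℕ) : AV K (fun _ => 1) = 1 := by
  rw [AV_eq, integral_const]
  simp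

theorem continuous_Cay : Continuous Cay := by
  have hn : Continuous fun v : Fin 3 → ℝ => nsq v := by
    unfold nsq
    exact continuous_finsetSum _ fun i _ => (continuous_apply i).pow 2
  have hpos : ∀ v : Fin 3 → ℝ, 1 + nsq v ≠ 0 := fun v => by
    have := nsq_nonneg' v
    positivity
  unfold Cay
  refine Continuous.smul ((continuous_const.add hn).inv₀ hpos) ?_
  refine Continuous.add (Continuous.add ?_ ?_) ?_
  · exact (continuous_const.sub hn).smul continuous_const
  · refine Continuous.const_smul ?_ (2 : ℝ)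
    exact Continuous.matrix_vecMulVec continuous_id continuous_id
  · refine Continuous.const_smul ?_ (2 : ℝ)
    refine continuous_matrix fun i j => ?_
    fin_cases i <;> fin_cases j <;> simp [skew] <;> fun_prop

/-- a.e. quaternion has `q 0 ≠ 0` -/
theorem ae_mu4 : ∀ᵐ q ∂mu4, q 0 ≠ 0 := by
  have h1 : ∀ᵐ q : Fin 4 → ℝ, q 0 ≠ 0 := by
    have := (Measure.quasiMeasurePreserving_eval (fun _ : Fin 4 => (volume : Measure ℝ)) 0)
    have h0 : ∀ᵐ t : ℝ, t ≠ 0 := by
      have : (volume : Measure ℝ) {0} = 0 := Real.volume_singleton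
      rw [ae_iff]
      simpa using this
    exact this.ae h0
  exact (withDensity_absolutelyContinuous _ _).ae_le h1

/-- `AV` through quaternions, for maps of the quaternions which preserve the Gaussian measure -/
theorem AV_quat {K : ℕ} (G G' : (Fin K → M3) → ℝ) (hG : Continuous G)
    (T : (Fin K → Fin 4 → ℝ) → Fin K → Fin 4 → ℝ)
    (hT : MeasurePreserving T (Measure.pi fun _ : Fin K => mu4) (Measure.pi fun _ : Fin K => mu4))
    (hGG : ∀ q : Fin K → Fin 4 → ℝ, (∀ p, q p 0 ≠ 0) →
      G' (fun p => Rq (q p)) = G (fun p => Rq (T q p))) (hG' : Continuous G') :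
    AV K G' = AV K G := by
  have hC : Continuous fun v : Fin K → Fin 3 → ℝ => fun p => Cay (v p) :=
    continuous_pi fun p => continuous_Cay.comp (continuous_apply p)
  have mpi : MeasurePreserving (fun (q : Fin K → Fin 4 → ℝ) p => cq (q p))
      (Measure.pi fun _ : Fin K => mu4) (Measure.pi fun _ : Fin K => mu3) :=
    measurePreserving_pi _ _ fun _ => measurePreserving_cq
  have key : ∀ H : (Fin K → M3) → ℝ, Continuous H → AV K H = ∫ q : Fin K → Fin 4 → ℝ,
      H (fun p => Cay (cq (q p))) ∂(Measure.pi fun _ : Fin K => mu4) := by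
    intro H hH
    rw [AV_eq, ← mpi.map_eq, integral_map mpi.measurable.aemeasurable]
    exact (hH.comp hC).aestronglyMeasurable
  have hae : ∀ᵐ q ∂(Measure.pi fun _ : Fin K => mu4), ∀ p, q p 0 ≠ 0 := by
    rw [ae_all_iff]
    intro p
    have := (Measure.quasiMeasurePreserving_eval (fun _ : Fin K => mu4) p)
    exact this.ae ae_mu4
  have hae' : ∀ᵐ q ∂(Measure.pi fun _ : Fin K => mu4), ∀ p, T q p 0 ≠ 0 :=
    hT.quasiMeasurePreserving.ae hae
  rw [key G' hG', key G hG]
  have e1 : ∫ q : Fin K → Fin 4 → ℝ, G' (fun p => Cay (cq (q p))) ∂(Measure.pi fun _ : Fin K => mu4)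
      = ∫ q : Fin K → Fin 4 → ℝ, G (fun p => Cay (cq (T q p))) ∂(Measure.pi fun _ : Fin K => mu4) := by
    refine integral_congr_ae ?_
    filter_upwards [hae, hae'] with q hq hq'
    have h1 : (fun p => Cay (cq (q p))) = fun p => Rq (q p) :=
      funext fun p => (Rq_eq_Cay (hq p)).symm
    have h2 : (fun p => Cay (cq (T q p))) = fun p => Rq (T q p) :=
      funext fun p => (Rq_eq_Cay (hq' p)).symm
    rw [h1, h2]
    exact hGG q hq
  rw [e1]
  set H : (Fin K → Fin 4 → ℝ) → ℝ := fun q => G (fun p => Cay (cq (q p))) with hH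
  have hHm : AEStronglyMeasurable H (Measure.map T (Measure.pi fun _ : Fin K => mu4)) := by
    rw [hT.map_eq]
    exact ((hG.comp hC).stronglyMeasurable.comp_measurable mpi.measurable).aestronglyMeasurable
  have h3 := integral_map hT.measurable.aemeasurable hHm
  rw [hT.map_eq] at h3
  exact h3.symm

/-! ### measure preserving maps of the quaternions -/

/-- a linear map which preserves `nsq` preserves the Gaussian measure -/
theorem measurePreserving_of_matrix (M : Matrix (Fin 4) (Fin 4) ℝ) (hM : M.transpose * M = 1) :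
    MeasurePreserving (fun q : Fin 4 → ℝ => M.mulVec q) mu4 mu4 := by
  have hdet : |M.det| = 1 := by
    have h := congrArg Matrix.det hM
    rw [Matrix.det_mul, Matrix.det_transpose, Matrix.det_one] at h
    have : |M.det| * |M.det| = 1 := by rw [← abs_mul, h, abs_one]
    nlinarith [abs_nonneg M.det]
  have hdet0 : M.det ≠ 0 := by
    intro h0
    rw [h0, abs_zero] at hdet
    exact zero_ne_one hdet
  have hvol : Measure.map (fun q : Fin 4 → ℝ => M.mulVec q) volume = volume := by
    have h := Real.map_matrix_volume_pi_eq_smul_volume_pi hdet0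
    rw [abs_inv, hdet, inv_one, ENNReal.ofReal_one, one_smul] at h
    exact h
  have hm : Measurable fun q : Fin 4 → ℝ => M.mulVec q := by
    have : Continuous fun q : Fin 4 → ℝ => M.mulVec q := by fun_prop
    exact this.measurable
  have hn : ∀ q : Fin 4 → ℝ, nsq (M.mulVec q) = nsq q := by
    intro q
    have e : ∀ x : Fin 4 → ℝ, nsq x = x ⬝ᵥ x := by
      intro x
      unfold nsq dotProduct
      exact Finset.sum_congr rfl fun i _ => pow_two _
    rw [e, e, Matrix.dotProduct_mulVec, ← Matrix.mulVec_transpose, Matrix.mulVec_mulVec, hM,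
      Matrix.one_mulVec]
  refine ⟨hm, ?_⟩
  ext s hs
  rw [Measure.map_apply hm hs]
  unfold mu4
  rw [withDensity_apply _ (hm hs), withDensity_apply _ hs]
  have h1 : ∀ q : Fin 4 → ℝ, ENNReal.ofReal (gq q) = ENNReal.ofReal (gq (M.mulVec q)) := by
    intro q
    unfold gq
    rw [hn]
  rw [lintegral_congr h1]
  have h2 := setLIntegral_map (μ := (volume : Measure (Fin 4 → ℝ))) (f := fun q => ENNReal.ofReal (gq q))
    (g := fun q : Fin 4 → ℝ => M.mulVec q) hs (ENNReal.measurable_ofReal.comp measurable_gq) hm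
  rw [hvol] at h2
  exact h2.symm

/-- matrix of the left multiplication -/
def Lq (p : Fin 4 → ℝ) : Matrix (Fin 4) (Fin 4) ℝ :=
  !![p 0, -p 1, -p 2, -p 3; p 1, p 0, -p 3, p 2; p 2, p 3, p 0, -p 1; p 3, -p 2, p 1, p 0]

/-- matrix of the right multiplication -/
def Rqm (p : Fin 4 → ℝ) : Matrix (Fin 4) (Fin 4) ℝ :=
  !![p 0, -p 1, -p 2, -p 3; p 1, p 0, p 3, -p 2; p 2, -p 3, p 0, p 1; p 3, p 2, -p 1, p 0]

/-- matrix of the conjugation -/
def Cq : Matrix (Fin 4) (Fin 4) ℝ := !![1, 0, 0, 0; 0, -1, 0, 0; 0, 0, -1, 0; 0, 0, 0, -1]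

theorem Lq_mulVec (p q : Fin 4 → ℝ) : (Lq p).mulVec q = qmul p q := by
  funext i
  fin_cases i <;> simp [Lq, qmul, Matrix.mulVec, dotProduct, Fin.sum_univ_four] <;> ring

theorem Rqm_mulVec (p q : Fin 4 → ℝ) : (Rqm p).mulVec q = qmul q p := by
  funext i
  fin_cases i <;> simp [Rqm, qmul, Matrix.mulVec, dotProduct, Fin.sum_univ_four] <;> ring

theorem Cq_mulVec (q : Fin 4 → ℝ) : Cq.mulVec q = qconj q := by
  funext i
  fin_cases i <;> simp [Cq, qconj, Matrix.mulVec, dotProduct, Fin.sum_univ_four]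

theorem Lq_orth {p : Fin 4 → ℝ} (hp : nsq p = 1) : (Lq p).transpose * Lq p = 1 := by
  rw [nsq4] at hp
  ext i j
  fin_cases i <;> fin_cases j <;>
    simp [Lq, Matrix.mul_apply, Fin.sum_univ_four, Matrix.transpose_apply] <;>
    first | linear_combination hp | ring

theorem Rqm_orth {p : Fin 4 → ℝ} (hp : nsq p = 1) : (Rqm p).transpose * Rqm p = 1 := by
  rw [nsq4] at hp
  ext i j
  fin_cases i <;> fin_cases j <;>
    simp [Rqm, Matrix.mul_apply, Fin.sum_univ_four, Matrix.transpose_apply] <;>
    first | linear_combination hp | ring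

theorem Cq_orth : Cq.transpose * Cq = 1 := by
  ext i j
  fin_cases i <;> fin_cases j <;>
    simp [Cq, Matrix.mul_apply, Fin.sum_univ_four, Matrix.transpose_apply]

theorem so3_exists_unit {A : M3} (hA : SO3 A) : ∃ q : Fin 4 → ℝ, nsq q = 1 ∧ A = Rq q := by
  obtain ⟨q, hq, hAq⟩ := so3_exists_quat hA
  have hpos : 0 < nsq q := lt_of_le_of_ne (nsq_nonneg' q) (Ne.symm hq)
  have hs : 0 < Real.sqrt (nsq q) := Real.sqrt_pos.2 hpos
  refine ⟨(Real.sqrt (nsq q))⁻¹ • q, ?_, ?_⟩
  · have : nsq ((Real.sqrt (nsq q))⁻¹ • q) = ((Real.sqrt (nsq q)) ^ 2)⁻¹ * nsq q := by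
      rw [nsq4 q, nsq4]
      simp only [Pi.smul_apply, smul_eq_mul]
      ring
    rw [this, Real.sq_sqrt hpos.le, inv_mul_cancel₀ hq]
  · rw [Rq_smul (inv_ne_zero hs.ne'), hAq]

/-- **AVLR** -/
theorem AV_lr {K : ℕ} (G : (Fin K → M3) → ℝ) (hG : Continuous G) (A B : Fin K → M3)
    (hA : ∀ p, SO3 (A p)) (hB : ∀ p, SO3 (B p)) :
    AV K (fun O => G (fun p => A p * O p * B p)) = AV K G := by
  choose a ha hAa using fun p => so3_exists_unit (hA p)
  choose b hb hBb using fun p => so3_exists_unit (hB p)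
  refine AV_quat G _ hG (fun q p => (Lq (a p) * Rqm (b p)).mulVec (q p)) ?_ ?_ ?_
  · refine measurePreserving_pi _ _ fun p => measurePreserving_of_matrix _ ?_
    rw [Matrix.transpose_mul, Matrix.mul_assoc, ← Matrix.mul_assoc (Lq (a p)).transpose,
      Lq_orth (ha p), Matrix.one_mul, Rqm_orth (hb p)]
  · intro q _
    congr 1
    funext p
    rw [← Matrix.mulVec_mulVec, Rqm_mulVec, Lq_mulVec, ← Rq_mul, ← Rq_mul, ← hAa, ← hBb,
      Matrix.mul_assoc]
  · refine hG.comp (continuous_pi fun p => ?_)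
    exact (continuous_const.matrix_mul (continuous_apply p)).matrix_mul continuous_const

/-- **AVPT** -/
theorem AV_pt {K : ℕ} (G : (Fin K → M3) → ℝ) (hG : Continuous G) (e : Equiv.Perm (Fin K))
    (fl : Fin K → Prop) [DecidablePred fl] :
    AV K (fun O => G (fun p => if fl p then (O (e p)).transpose else O (e p))) = AV K G := by
  refine AV_quat G _ hG
    (fun q p => (if fl p then Cq else 1 : Matrix (Fin 4) (Fin 4) ℝ).mulVec (q (e p))) ?_ ?_ ?_
  · have h1 : MeasurePreserving (fun (q : Fin K → Fin 4 → ℝ) p => q (e p))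
        (Measure.pi fun _ : Fin K => mu4) (Measure.pi fun _ : Fin K => mu4) := by
      have := measurePreserving_arrowCongr' (fun _ : Fin K => mu4) (fun _ : Fin K => mu4) e.symm
        (MeasurableEquiv.refl _) (fun _ => MeasurePreserving.id _)
      exact this
    have h2 : MeasurePreserving (fun (q : Fin K → Fin 4 → ℝ) p =>
        (if fl p then Cq else 1 : Matrix (Fin 4) (Fin 4) ℝ).mulVec (q p))
        (Measure.pi fun _ : Fin K => mu4) (Measure.pi fun _ : Fin K => mu4) := by
      refine measurePreserving_pi _ _ fun p => measurePreserving_of_matrix _ ?_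
      split_ifs
      · exact Cq_orth
      · rw [Matrix.transpose_one, Matrix.one_mul]
    exact h2.comp h1
  · intro q _
    congr 1
    funext p
    split_ifs
    · rw [Cq_mulVec, Rq_transpose]
    · rw [Matrix.one_mulVec]
  · refine hG.comp (continuous_pi fun p => ?_)
    split_ifs
    · exact (continuous_apply (e p)).matrix_transpose
    · exact continuous_apply (e p)

end Pool.Agent.Helper76.T5
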