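import Pool.Agent.Helper46.T5.Stmts
import Pool.Agent.Helper76.T5.Haar

/-!
# The modules CAY, AV1, AVLR, AVPT
-/

set_option autoImplicit false

open Finset MeasureTheory

namespace Pool.Agent.Helper76.T5

open Pool.Agent.Helper15.T4 Pool.Agent.Helper46.T5

theorem st_CAY : ST_CAY := Cay_SO3

theorem st_AV1 : ST_AV1 := fun K =>
  ⟨AV_one K, Integrable.fintype_prod (f := fun _ : Fin K => rho) fun _ => integrable_rho⟩

theorem st_AVLR : ST_AVLR := fun _ G hG A B hA hB => AV_lr G hG A B hA hB

theorem Cay_neg (v : Fin 3 → ℝ) : Cay (-v) = (Cay v).transpose := by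
  have h1 : nsq (-v) = nsq v := by
    simp [nsq]
  unfold Cay
  rw [h1]
  ext i j
  fin_cases i <;> fin_cases j <;>
    simp [Matrix.vecMulVec_apply, skew, Matrix.transpose_apply, Matrix.smul_apply,
      Matrix.add_apply, mul_comm] <;> ring

theorem rho_neg (v : Fin 3 → ℝ) : rho (-v) = rho v := by
  have h1 : nsq (-v) = nsq v := by
    simp [nsq]
  unfold rho
  rw [h1]

/-- the sign change on some coordinates -/
noncomputable def flE {K : ℕ} (fl : Fin K → Fin 2) : (Fin K → Fin 3 → ℝ) ≃ᵐ (Fin K → Fin 3 → ℝ) :=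
  MeasurableEquiv.piCongrRight fun p =>
    if fl p = 0 then MeasurableEquiv.refl _ else MeasurableEquiv.neg (Fin 3 → ℝ)

theorem flE_apply {K : ℕ} (fl : Fin K → Fin 2) (v : Fin K → Fin 3 → ℝ) (p : Fin K) :
    flE fl v p = if fl p = 0 then v p else -(v p) := by
  unfold flE
  by_cases h : fl p = 0
  · simp [MeasurableEquiv.piCongrRight, h]
  · simp [MeasurableEquiv.piCongrRight, h]

theorem flE_mp {K : ℕ} (fl : Fin K → Fin 2) : MeasurePreserving (flE fl) := by
  have h := measurePreserving_pi (μ := fun _ : Fin K => (volume : Measure (Fin 3 → ℝ)))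
    (ν := fun _ : Fin K => (volume : Measure (Fin 3 → ℝ)))
    (f := fun p => ⇑(if fl p = 0 then MeasurableEquiv.refl (Fin 3 → ℝ)
      else MeasurableEquiv.neg (Fin 3 → ℝ))) (fun p => by
        by_cases h : fl p = 0
        · simp only [h, if_true]
          exact MeasurePreserving.id _
        · simp only [h, if_false]
          exact Measure.measurePreserving_neg (volume : Measure (Fin 3 → ℝ)))
  exact h

theorem st_AVPT : ST_AVPT := by
  intro K G e fl
  unfold AV
  have mp1 := volume_measurePreserving_piCongrLeft (fun _ : Fin K => Fin 3 → ℝ) e.symm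
  have mp2 := flE_mp fl
  have h := (mp2.comp mp1)
  have e1 := (mp1.trans mp2).integral_comp' (f := (MeasurableEquiv.piCongrLeft
    (fun _ : Fin K => Fin 3 → ℝ) e.symm).trans (flE fl))
    (g := fun v : Fin K → Fin 3 → ℝ => G (fun p => Cay (v p)) * ∏ p, rho (v p))
  rw [← e1]
  refine integral_congr_ae (ae_of_all _ fun v => ?_)
  have hv : ∀ p, ((MeasurableEquiv.piCongrLeft
    (fun _ : Fin K => Fin 3 → ℝ) e.symm).trans (flE fl)) v p
      = if fl p = 0 then v (e p) else -(v (e p)) := by
    intro p
    rw [MeasurableEquiv.coe_trans, Function.comp_apply, flE_apply]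
    have h3 : (MeasurableEquiv.piCongrLeft (fun _ : Fin K => Fin 3 → ℝ) e.symm) v p = v (e p) := by
      have := MeasurableEquiv.piCongrLeft_apply_apply (β := fun _ : Fin K => Fin 3 → ℝ) e.symm v (e p)
      rwa [Equiv.symm_apply_apply] at this
    rw [h3]
  simp only [hv]
  have hG : (fun p => Cay (if fl p = 0 then v (e p) else -(v (e p))))
      = fun p => if fl p = 0 then Cay (v (e p)) else (Cay (v (e p))).transpose := by
    funext p
    by_cases h : fl p = 0
    · simp [h]
    · simp only [h, if_false, Cay_neg]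
  have hr : ∏ p, rho (if fl p = 0 then v (e p) else -(v (e p))) = ∏ p, rho (v p) := by
    rw [← Equiv.prod_comp e (fun p => rho (v p))]
    refine Finset.prod_congr rfl fun p _ => ?_
    by_cases h : fl p = 0
    · simp [h]
    · simp only [h, if_false, rho_neg]
  rw [hG, hr]

end Pool.Agent.Helper76.T5
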