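import Pool.Agent.Helper76.T5.ThmA

/-!
# Theorem A: frames with zero diagonal; the general case
-/

set_option autoImplicit false

open scoped ComplexConjugate

namespace Pool.Agent.Helper76.T5

variable {V : Type*} [NormedAddCommGroup V] [InnerProductSpace ℂ V]

/-- a matrix acting on `V³` -/
def mact (U : Matrix (Fin 3) (Fin 3) ℂ) (x : Fin 3 → V) : Fin 3 → V := fun i => ∑ j, U i j • x j

theorem mact_apply (U : Matrix (Fin 3) (Fin 3) ℂ) (x : Fin 3 → V) (i : Fin 3) :
    mact U x i = U i 0 • x 0 + U i 1 • x 1 + U i 2 • x 2 := by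
  unfold mact
  rw [Fin.sum_univ_three]

theorem mact_mul (U U' : Matrix (Fin 3) (Fin 3) ℂ) (x : Fin 3 → V) :
    mact U (mact U' x) = mact (U * U') x := by
  funext i
  unfold mact
  simp only [Matrix.mul_apply, Finset.smul_sum, Finset.sum_smul, smul_smul]
  rw [Finset.sum_comm]

theorem mact_one (x : Fin 3 → V) : mact (1 : Matrix (Fin 3) (Fin 3) ℂ) x = x := by
  funext i
  unfold mact
  simp [Matrix.one_apply, Finset.sum_ite_eq]

theorem sumin_mact {U : Matrix (Fin 3) (Fin 3) ℂ} (hU : U.conjTranspose * U = 1)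
    (x y : Fin 3 → V) :
    ∑ i, inner ℂ (mact U x i) (mact U y i) = ∑ i, inner ℂ (x i) (y i) := by
  have h1 : ∀ j k, ∑ i, conj (U i j) * U i k = if j = k then 1 else 0 := by
    intro j k
    have := congrFun (congrFun hU j) k
    rw [Matrix.mul_apply, Matrix.one_apply] at this
    simpa [Matrix.conjTranspose_apply] using this
  have h2 : ∀ i, inner ℂ (mact U x i) (mact U y i)
      = ∑ j, ∑ k, (conj (U i j) * U i k) * inner ℂ (x j) (y k) := by
    intro i
    unfold mact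
    rw [sum_inner]
    refine Finset.sum_congr rfl fun j _ => ?_
    rw [inner_sum]
    refine Finset.sum_congr rfl fun k _ => ?_
    rw [inner_smul_left, inner_smul_right]
    ring
  rw [Finset.sum_congr rfl fun i _ => h2 i, Finset.sum_comm]
  have h3 : ∀ j, ∑ i, ∑ k, (conj (U i j) * U i k) * inner ℂ (x j) (y k) = inner ℂ (x j) (y j) := by
    intro j
    rw [Finset.sum_comm]
    have : ∀ k, ∑ i, (conj (U i j) * U i k) * inner ℂ (x j) (y k)
        = (if j = k then 1 else 0) * inner ℂ (x j) (y k) := by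
      intro k
      rw [← Finset.sum_mul, h1]
    rw [Finset.sum_congr rfl fun k _ => this k]
    simp
  exact Finset.sum_congr rfl fun j _ => h3 j

theorem nm_sq' (x : Fin 3 → V) : ((nm x ^ 2 : ℝ) : ℂ) = ∑ i, inner ℂ (x i) (x i) := by
  rw [nm_sq, Fin.sum_univ_three]
  simp only [inner_self_eq_norm_sq_to_K]
  push_cast
  rfl

theorem nm_mact {U : Matrix (Fin 3) (Fin 3) ℂ} (hU : U.conjTranspose * U = 1) (x : Fin 3 → V) :
    nm (mact U x) = nm x := by
  have h1 : nm (mact U x) ^ 2 = nm x ^ 2 := by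
    have := nm_sq' (mact U x)
    rw [sumin_mact hU, ← nm_sq'] at this
    exact_mod_cast this
  exact (sq_eq_sq₀ (nm_nonneg _) (nm_nonneg _)).1 h1

theorem norm_det_of {U : Matrix (Fin 3) (Fin 3) ℂ} (hU : U.conjTranspose * U = 1) :
    ‖U.det‖ = 1 := by
  have h := congrArg Matrix.det hU
  rw [Matrix.det_mul, Matrix.det_conjTranspose, Matrix.det_one] at h
  have h2 := congrArg norm h
  rw [norm_mul, norm_star, norm_one] at h2
  nlinarith [norm_nonneg U.det]

variable (Φ : V →ₗ[ℂ] V →ₗ[ℂ] V →ₗ[ℂ] ℂ)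

theorem dtf_mact (U : Matrix (Fin 3) (Fin 3) ℂ) (x y z : Fin 3 → V) :
    dtf Φ (mact U x) (mact U y) (mact U z) = U.det * dtf Φ x y z := by
  unfold dtf
  rw [Matrix.det_fin_three]
  simp only [mact_apply, map_add, map_smul, LinearMap.add_apply, LinearMap.smul_apply,
    smul_eq_mul]
  ring

variable {Φ}

/-! ### zero diagonal -/

theorem exists_rot_scalar (a b c' : ℂ) (s : ℝ) (hs : 0 < s ∨ a = 0) :
    ∃ c d : ℂ, ‖c‖ ^ 2 + ‖d‖ ^ 2 = 1 ∧
      conj c * c * a + conj c * d * b + conj d * c * c' - (s : ℂ) * (conj d * d) * a = 0 := by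
  by_cases ha : a = 0
  · refine ⟨1, 0, by simp, by simp [ha]⟩
  have hs : 0 < s := by
    rcases hs with h | h
    · exact h
    · exact absurd h ha
  obtain ⟨u, hu, hu2⟩ := exists_unit_re (Complex.I * (conj a * b - conj (conj a * c')))
  have hIm : (conj a * (u * b + conj u * c')).im = 0 := by
    have h1 : (u * (Complex.I * (conj a * b - conj (conj a * c')))).re
        = - (u * (conj a * b - conj (conj a * c'))).im := by
      rw [mul_left_comm, Complex.I_mul_re]
    rw [h1, neg_eq_zero] at hu2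
    have h2 : (conj a * (u * b + conj u * c')).im = (u * (conj a * b - conj (conj a * c'))).im := by
      have h3 : (conj u * (conj a * c')).im = - (u * conj (conj a * c')).im := by
        have : conj (u * conj (conj a * c')) = conj u * (conj a * c') := by
          rw [map_mul, Complex.conj_conj]
        rw [← this, Complex.conj_im]
      have h4 : conj a * (u * b + conj u * c') = u * (conj a * b) + conj u * (conj a * c') := by
        ring
      rw [h4, Complex.add_im, h3, mul_sub, Complex.sub_im]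
      ring
    rw [h2, hu2]
  -- the real number `r`
  have hna : Complex.normSq a ≠ 0 := by simpa using ha
  set r : ℝ := (conj a * (u * b + conj u * c')).re / Complex.normSq a with hr
  have hra : u * b + conj u * c' = (r : ℂ) * a := by
    have h1 : conj a * (u * b + conj u * c') = ((conj a * (u * b + conj u * c')).re : ℂ) := by
      apply Complex.ext
      · simp
      · rw [hIm]; simp
    have h2 : ((r : ℝ) : ℂ) * a * conj a = conj a * (u * b + conj u * c') := by
      rw [h1, mul_assoc, Complex.mul_conj, hr, ← Complex.ofReal_mul, div_mul_cancel₀ _ hna]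
    have h3 : conj a ≠ 0 := by simpa using ha
    have h4 : conj a * (u * b + conj u * c' - (r : ℂ) * a) = 0 := by
      rw [mul_sub, ← h2]; ring
    rcases mul_eq_zero.1 h4 with h | h
    · exact absurd h h3
    · exact sub_eq_zero.1 h
  -- the real number `t`
  set t : ℝ := (r + Real.sqrt (r ^ 2 + 4 * s)) / (2 * s) with ht
  have htt : 1 + r * t - s * t ^ 2 = 0 := by
    have h1 : Real.sqrt (r ^ 2 + 4 * s) ^ 2 = r ^ 2 + 4 * s := Real.sq_sqrt (by positivity)
    rw [ht]
    field_simp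
    nlinarith
  have hq : 0 < 1 + t ^ 2 := by positivity
  set w : ℝ := (Real.sqrt (1 + t ^ 2))⁻¹ with hw
  have hw2 : w ^ 2 * (1 + t ^ 2) = 1 := by
    rw [hw, inv_pow, Real.sq_sqrt hq.le, inv_mul_cancel₀ hq.ne']
  refine ⟨(w : ℂ), ((w * t : ℝ) : ℂ) * u, ?_, ?_⟩
  · rw [norm_mul, hu, mul_one, Complex.norm_real, Complex.norm_real, Real.norm_eq_abs,
      Real.norm_eq_abs, sq_abs, sq_abs]
    nlinarith
  · have huu : conj u * u = 1 := by
      rw [mul_comm, Complex.mul_conj, Complex.normSq_eq_norm_sq, hu]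
      norm_num
    simp only [map_mul, Complex.conj_ofReal]
    have e1 : (w : ℂ) * w * a + w * (((w * t : ℝ) : ℂ) * u) * b
        + ((w * t : ℝ) : ℂ) * conj u * w * c'
        - (s : ℂ) * (((w * t : ℝ) : ℂ) * conj u * (((w * t : ℝ) : ℂ) * u)) * a
        = (w : ℂ) ^ 2 * (a + t * (u * b + conj u * c') - s * t ^ 2 * (conj u * u) * a) := by
      push_cast
      ring
    rw [e1, hra, huu]
    have e2 : a + (t : ℂ) * ((r : ℂ) * a) - s * t ^ 2 * 1 * a
        = ((1 + r * t - s * t ^ 2 : ℝ) : ℂ) * a := by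
      push_cast; ring
    rw [e2, htt]
    simp

theorem exists_rot (p q p' q' : V) (τ : ℂ) (s : ℝ)
    (h : inner ℂ q q' - τ = - (s : ℂ) * (inner ℂ p p' - τ))
    (hs : 0 < s ∨ inner ℂ p p' - τ = 0) :
    ∃ c d : ℂ, ‖c‖ ^ 2 + ‖d‖ ^ 2 = 1 ∧ inner ℂ (c • p + d • q) (c • p' + d • q') = τ := by
  obtain ⟨c, d, hcd, h0⟩ := exists_rot_scalar (inner ℂ p p' - τ) (inner ℂ p q') (inner ℂ q p') s hs
  refine ⟨c, d, hcd, ?_⟩
  have h1 : conj c * c + conj d * d = 1 := by
    have hc : conj c * c = ((‖c‖ ^ 2 : ℝ) : ℂ) := by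
      rw [mul_comm, Complex.mul_conj, Complex.normSq_eq_norm_sq]
    have hd : conj d * d = ((‖d‖ ^ 2 : ℝ) : ℂ) := by
      rw [mul_comm, Complex.mul_conj, Complex.normSq_eq_norm_sq]
    rw [hc, hd, ← Complex.ofReal_add, hcd, Complex.ofReal_one]
  have h2 : inner ℂ q q' = τ - (s : ℂ) * (inner ℂ p p' - τ) := by
    linear_combination h
  rw [inner_add_left, inner_add_right, inner_add_right, inner_smul_left, inner_smul_left,
    inner_smul_left, inner_smul_left, inner_smul_right, inner_smul_right, inner_smul_right,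
    inner_smul_right, h2]
  linear_combination h0 + τ * h1

/-- rotation in the plane (1,2) -/
def M12 (c d : ℂ) : Matrix (Fin 3) (Fin 3) ℂ := !![1, 0, 0; 0, c, d; 0, -conj d, conj c]

/-- rotation in the plane (0,1) -/
def M01 (c d : ℂ) : Matrix (Fin 3) (Fin 3) ℂ := !![c, d, 0; -conj d, conj c, 0; 0, 0, 1]

theorem norm_rel {c d : ℂ} (h : ‖c‖ ^ 2 + ‖d‖ ^ 2 = 1) : c * conj c + d * conj d = 1 := by
  rw [Complex.mul_conj, Complex.mul_conj, Complex.normSq_eq_norm_sq, Complex.normSq_eq_norm_sq,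
    ← Complex.ofReal_add, h, Complex.ofReal_one]

theorem M12_unitary {c d : ℂ} (h : ‖c‖ ^ 2 + ‖d‖ ^ 2 = 1) :
    (M12 c d).conjTranspose * M12 c d = 1 := by
  have h1 := norm_rel h
  ext i j
  fin_cases i <;> fin_cases j <;>
    simp [M12, Matrix.mul_apply, Fin.sum_univ_three, Matrix.conjTranspose_apply] <;>
    first | linear_combination h1 | ring

theorem M01_unitary {c d : ℂ} (h : ‖c‖ ^ 2 + ‖d‖ ^ 2 = 1) :
    (M01 c d).conjTranspose * M01 c d = 1 := by
  have h1 := norm_rel h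
  ext i j
  fin_cases i <;> fin_cases j <;>
    simp [M01, Matrix.mul_apply, Fin.sum_univ_three, Matrix.conjTranspose_apply] <;>
    first | linear_combination h1 | ring

theorem M12_zero (c d : ℂ) (x : Fin 3 → V) : mact (M12 c d) x 0 = x 0 := by
  simp [mact_apply, M12]

theorem M12_one (c d : ℂ) (x : Fin 3 → V) : mact (M12 c d) x 1 = c • x 1 + d • x 2 := by
  simp [mact_apply, M12]

theorem M01_zero (c d : ℂ) (x : Fin 3 → V) : mact (M01 c d) x 0 = c • x 0 + d • x 1 := by
  simp [mact_apply, M01]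

/-- frame with zero diagonal which extends a given first vector -/
theorem exists_frame1 (x y : Fin 3 → V) (h : ∑ i, inner ℂ (x i) (y i) = 0)
    (h0 : inner ℂ (x 0) (y 0) = 0) :
    ∃ c d : ℂ, ‖c‖ ^ 2 + ‖d‖ ^ 2 = 1 ∧
      ∀ i, inner ℂ (mact (M12 c d) x i) (mact (M12 c d) y i) = 0 := by
  rw [Fin.sum_univ_three, h0, zero_add] at h
  obtain ⟨c, d, hcd, h1⟩ := exists_rot (x 1) (x 2) (y 1) (y 2) 0 1
    (by rw [Complex.ofReal_one]; linear_combination h) (Or.inl one_pos)
  have hd : ∑ i, inner ℂ (mact (M12 c d) x i) (mact (M12 c d) y i) = 0 := by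
    rw [sumin_mact (M12_unitary hcd), Fin.sum_univ_three, h0, zero_add, h]
  refine ⟨c, d, hcd, ?_⟩
  have e0 : inner ℂ (mact (M12 c d) x 0) (mact (M12 c d) y 0) = 0 := by
    rw [M12_zero, M12_zero, h0]
  have e1 : inner ℂ (mact (M12 c d) x 1) (mact (M12 c d) y 1) = 0 := by
    rw [M12_one, M12_one, h1]
  rw [Fin.sum_univ_three, e0, e1, zero_add, zero_add] at hd
  intro i
  fin_cases i
  · exact e0
  · exact e1
  · exact hd

/-- a frame with zero diagonal -/
theorem exists_frame (x y : Fin 3 → V) (h : ∑ i, inner ℂ (x i) (y i) = 0) :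
    ∃ U : Matrix (Fin 3) (Fin 3) ℂ, U.conjTranspose * U = 1 ∧
      ∀ i, inner ℂ (mact U x i) (mact U y i) = 0 := by
  -- reduction to a frame with zero first entry
  obtain ⟨U, hU, hU0⟩ : ∃ U : Matrix (Fin 3) (Fin 3) ℂ, U.conjTranspose * U = 1 ∧
      inner ℂ (mact U x 0) (mact U y 0) = 0 := by
    rw [Fin.sum_univ_three] at h
    set g0 : ℂ := inner ℂ (x 0) (y 0) with hg0
    set g1 : ℂ := inner ℂ (x 1) (y 1) with hg1
    set g2 : ℂ := inner ℂ (x 2) (y 2) with hg2
    obtain ⟨c, d, hcd, h1⟩ := exists_rot (x 1) (x 2) (y 1) (y 2) ((g1 + g2) / 2) 1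
      (by rw [← hg1, ← hg2]; push_cast; ring) (Or.inl one_pos)
    set x1 := mact (M12 c d) x with hx1
    set y1 := mact (M12 c d) y with hy1
    have e0 : inner ℂ (x1 0) (y1 0) = g0 := by rw [hx1, hy1, M12_zero, M12_zero]
    have e1 : inner ℂ (x1 1) (y1 1) = - g0 / 2 := by
      rw [hx1, hy1, M12_one, M12_one, h1]
      linear_combination h / 2
    obtain ⟨c', d', hcd', h1'⟩ := exists_rot (x1 0) (x1 1) (y1 0) (y1 1) 0 (1 / 2)
      (by rw [e0, e1]; push_cast; ring) (Or.inl (by norm_num))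
    refine ⟨M01 c' d' * M12 c d, ?_, ?_⟩
    · rw [Matrix.conjTranspose_mul, Matrix.mul_assoc, ← Matrix.mul_assoc _ (M01 c' d'),
        M01_unitary hcd', Matrix.one_mul, M12_unitary hcd]
    · rw [← mact_mul, ← mact_mul, M01_zero, M01_zero, h1']
  obtain ⟨c, d, hcd, h1⟩ := exists_frame1 (mact U x) (mact U y) (by rw [sumin_mact hU, h]) hU0
  refine ⟨M12 c d * U, ?_, ?_⟩
  · rw [Matrix.conjTranspose_mul, Matrix.mul_assoc, ← Matrix.mul_assoc _ (M12 c d),
      M12_unitary hcd, Matrix.one_mul, hU]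
  · intro i
    rw [← mact_mul, ← mact_mul]
    exact h1 i

/-! ### Theorem A -/

theorem IsCub.thmA1 [FiniteDimensional ℂ V] (h : IsCub Φ) (x y z : Fin 3 → V)
    (hxy : ∑ i, inner ℂ (x i) (y i) = 0) : ‖dtf Φ x y z‖ ≤ nm x * nm y * nm z := by
  obtain ⟨U, hU, hd⟩ := exists_frame x y hxy
  have h1 := h.thmA0 (mact U x) (mact U y) (mact U z) hd
  rwa [dtf_mact, norm_mul, norm_det_of hU, one_mul, nm_mact hU, nm_mact hU, nm_mact hU] at h1

theorem IsCub.dtf_self (h : IsCub Φ) (x z : Fin 3 → V) : dtf Φ x x z = 0 := by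
  unfold dtf
  rw [h.s12 (x 1) (x 0), h.s12 (x 2) (x 0), h.s12 (x 2) (x 1)]
  ring

theorem dtf_sub_smul (Φ : V →ₗ[ℂ] V →ₗ[ℂ] V →ₗ[ℂ] ℂ) (x y z : Fin 3 → V) (l : ℂ) :
    dtf Φ x (fun i => y i - l • x i) z = dtf Φ x y z - l * dtf Φ x x z := by
  unfold dtf
  simp only [map_sub, map_smul, LinearMap.sub_apply, LinearMap.smul_apply, smul_eq_mul]
  ring

/-- **Theorem A** -/
theorem IsCub.thmA [FiniteDimensional ℂ V] (h : IsCub Φ) (x y z : Fin 3 → V) :
    ‖dtf Φ x y z‖ ≤ nm x * nm y * nm z := by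
  by_cases hx : nm x = 0
  · have h0 : nm x ^ 2 = 0 := by rw [hx]; norm_num
    rw [nm_sq] at h0
    have x0 : ‖x 0‖ = 0 := by
      have : ‖x 0‖ ^ 2 = 0 := by nlinarith [sq_nonneg ‖x 0‖, sq_nonneg ‖x 1‖, sq_nonneg ‖x 2‖]
      exact pow_eq_zero_iff (two_ne_zero) |>.1 this
    have x1 : ‖x 1‖ = 0 := by
      have : ‖x 1‖ ^ 2 = 0 := by nlinarith [sq_nonneg ‖x 0‖, sq_nonneg ‖x 1‖, sq_nonneg ‖x 2‖]
      exact pow_eq_zero_iff (two_ne_zero) |>.1 this
    have x2 : ‖x 2‖ = 0 := by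
      have : ‖x 2‖ ^ 2 = 0 := by nlinarith [sq_nonneg ‖x 0‖, sq_nonneg ‖x 1‖, sq_nonneg ‖x 2‖]
      exact pow_eq_zero_iff (two_ne_zero) |>.1 this
    rw [norm_eq_zero] at x0 x1 x2
    have : dtf Φ x y z = 0 := by
      unfold dtf
      rw [x0, x1, x2]
      simp
    rw [this, hx]
    simp
  have hx0 : 0 < nm x := lt_of_le_of_ne (nm_nonneg x) (Ne.symm hx)
  set T : ℂ := ∑ i, inner ℂ (x i) (y i) with hT
  set l : ℂ := T / ((nm x ^ 2 : ℝ) : ℂ) with hl
  have hn0 : ((nm x ^ 2 : ℝ) : ℂ) ≠ 0 := by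
    exact_mod_cast (pow_pos hx0 2).ne'
  set y' : Fin 3 → V := fun i => y i - l • x i with hy'
  have hxy' : ∑ i, inner ℂ (x i) (y' i) = 0 := by
    have h1 : ∀ i, inner ℂ (x i) (y' i) = inner ℂ (x i) (y i) - l * inner ℂ (x i) (x i) := by
      intro i
      rw [hy', inner_sub_right, inner_smul_right]
    rw [Finset.sum_congr rfl fun i _ => h1 i, Finset.sum_sub_distrib, ← Finset.mul_sum, ← nm_sq',
      ← hT, hl, div_mul_cancel₀ _ hn0, sub_self]
  have hny : nm y' ^ 2 ≤ nm y ^ 2 := by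
    have h1 : ((nm y ^ 2 : ℝ) : ℂ) = ((nm y' ^ 2 + ‖l‖ ^ 2 * nm x ^ 2 : ℝ) : ℂ) := by
      rw [nm_sq' y]
      have h2 : ∀ i, inner ℂ (y i) (y i) = inner ℂ (y' i) (y' i) + l * inner ℂ (y' i) (x i)
          + conj l * inner ℂ (x i) (y' i) + conj l * l * inner ℂ (x i) (x i) := by
        intro i
        have : y i = y' i + l • x i := by rw [hy']; simp
        rw [this, inner_add_left, inner_add_right, inner_add_right, inner_smul_left,
          inner_smul_left, inner_smul_right, inner_smul_right]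
        ring
      rw [Finset.sum_congr rfl fun i _ => h2 i]
      simp only [Finset.sum_add_distrib, ← Finset.mul_sum]
      have h3 : ∑ i, inner ℂ (y' i) (x i) = 0 := by
        have h4 : ∑ i, inner ℂ (y' i) (x i) = conj (∑ i, inner ℂ (x i) (y' i)) := by
          rw [map_sum]
          exact Finset.sum_congr rfl fun i _ => (inner_conj_symm _ _).symm
        rw [h4, hxy', map_zero]
      rw [h3, hxy', ← nm_sq', ← nm_sq', mul_zero, mul_zero, add_zero, add_zero]
      have h5 : conj l * l = ((‖l‖ ^ 2 : ℝ) : ℂ) := by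
        rw [mul_comm, Complex.mul_conj, Complex.normSq_eq_norm_sq]
      rw [h5]
      push_cast
      ring
    have h2 : nm y ^ 2 = nm y' ^ 2 + ‖l‖ ^ 2 * nm x ^ 2 := by exact_mod_cast h1
    rw [h2]
    nlinarith [mul_nonneg (sq_nonneg ‖l‖) (sq_nonneg (nm x))]
  have hny' : nm y' ≤ nm y := (abs_le_of_sq_le_sq' hny (nm_nonneg y)).2
  have h6 := h.thmA1 x y' z hxy'
  rw [hy', dtf_sub_smul, h.dtf_self, mul_zero, sub_zero] at h6
  refine h6.trans ?_
  rw [← hy']
  exact mul_le_mul_of_nonneg_right (mul_le_mul_of_nonneg_left hny' (nm_nonneg x)) (nm_nonneg z)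

end Pool.Agent.Helper76.T5
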