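import Pool.Agent.Helper15.T5.Stmts

/-! Module MAIN5 of t5_mods: almost all cubic graphs of girth at least `g` are 3-edge-choosable. -/

set_option autoImplicit false

open Finset MeasureTheory Filter Topology

namespace Pool.Agent.Helper76.T5

open Pool.Agent.Helper15.T4 Pool.Agent.Helper46.T5 Pool.Agent.Helper15.T5

theorem card_PM (hCARD : ST_CARD) (N : ℕ) : 0 < (PM (univ : Finset (HE (2 * N)))).card := by
  classical
  rw [hCARD (HE (2 * N)) univ (3 * N) (by
    rw [Finset.card_univ, Fintype.card_prod, Fintype.card_fin, Fintype.card_fin]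
    ring)]
  exact Finset.prod_pos fun i _ => by omega

theorem zs_zero {n g m k : ℕ} {M : Finset (Sym2 (HE n))} (h : NoShort g M) (hk : k < g - 1) :
    Zs m k M = 0 := by
  classical
  unfold Zs
  rw [Finset.card_eq_zero, Finset.filter_eq_empty_iff]
  rintro C hC ⟨h1, _⟩
  unfold Cyc at hC
  rw [Finset.mem_image] at hC
  obtain ⟨c, hc, rfl⟩ := hC
  rw [Finset.mem_filter] at hc
  exact h k (by omega) c hc.2 h1

theorem sN_nonneg (N : ℕ) : 0 ≤ sN N := by
  unfold sN
  positivity

open Classical in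
theorem end_app (hCARD : ST_CARD) (hSERT : ST_SERT) (hCM : ST_CM) (hEND : ST_END) (g : ℕ)
    (hg : 3 ≤ g) :
    Tendsto (fun N : ℕ => (((((PM (univ : Finset (HE (2 * N)))).filter
      (fun M => NoShort g M)).filter (fun M => Zc M = 0)).card : ℝ) /
      ((PM (univ : Finset (HE (2 * N)))).card : ℝ))) atTop (𝓝 0) := by
  obtain ⟨hs1, hs2, hs3⟩ := hSERT
  have h := hEND (fun N => Finset (Sym2 (HE (2 * N)))) (fun N => PM univ)
    (fun N => (PM (univ : Finset (HE (2 * N)))).filter (fun M => NoShort g M))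
    (fun N M => ((Zc M : ℤ) : ℝ) ^ 2 / sN N) (fun N m M k => Zs m k M) lam tau5 (g - 1)
    (fun k => by unfold lam; positivity) (fun k hk => hs2 k (by omega)) hs3
    (Filter.Eventually.of_forall fun N => card_PM hCARD N)
    (fun N x => div_nonneg (sq_nonneg _) (sN_nonneg N))
    (fun K m z => hCM K m z)
    (fun N => Finset.filter_subset _ _)
    (fun N m M hM k hk => zs_zero (Finset.mem_filter.1 hM).2 hk)
  refine tendsto_of_tendsto_of_tendsto_of_le_of_le tendsto_const_nhds h (fun N => ?_) (fun N => ?_)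
  · positivity
  · dsimp only
    refine div_le_div_of_nonneg_right ?_ (Nat.cast_nonneg _)
    rw [Nat.cast_le]
    refine Finset.card_le_card fun M hM => ?_
    rw [Finset.mem_filter] at hM ⊢
    refine ⟨hM.1, ?_⟩
    rw [hM.2]
    simp

theorem Cubic.three {n g : ℕ} {G : SimpleGraph (Fin n)} (hg : 3 ≤ g) (h : Cubic g G) : Cubic 3 G :=
  ⟨h.1, fun u p hp => hg.trans (h.2 u p hp)⟩

open Classical in
theorem count (hFIBG : ST_FIBG) (hGIR1 : ST_GIR1) (hGIR2 : ST_GIR2) (hATL : ST_ATL) (n g : ℕ)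
    (hg : 3 ≤ g) :
    ((PM (univ : Finset (HE n))).filter (fun M => NoShort g M)).card =
      6 ^ n * {G : SimpleGraph (Fin n) | Cubic g G}.ncard ∧
    6 ^ n * {G : SimpleGraph (Fin n) | Cubic g G ∧ ¬ Ch3 G}.ncard ≤
      (((PM (univ : Finset (HE n))).filter (fun M => NoShort g M)).filter
        (fun M => Zc M = 0)).card := by
  have hfib : ∀ P : SimpleGraph (Fin n) → Prop, (∀ G, P G → Cubic g G) →
      ((PM (univ : Finset (HE n))).filter (fun M => P (Gr M))).card =
      6 ^ n * {G : SimpleGraph (Fin n) | P G}.ncard := by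
    intro P hP
    have h1 := Finset.card_eq_sum_card_fiberwise (f := fun M : Finset (Sym2 (HE n)) => Gr M)
      (s := (PM (univ : Finset (HE n))).filter (fun M => P (Gr M)))
      (t := univ.filter (fun G : SimpleGraph (Fin n) => P G)) (by
        intro M hM
        have := (Finset.mem_filter.1 (Finset.mem_coe.1 hM)).2
        simpa using this)
    rw [h1]
    have h2 : ∀ G ∈ univ.filter (fun G : SimpleGraph (Fin n) => P G),
        (((PM (univ : Finset (HE n))).filter (fun M => P (Gr M))).filter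
          (fun M => Gr M = G)).card = 6 ^ n := by
      intro G hG
      rw [Finset.mem_filter] at hG
      rw [← hFIBG n G (hP G hG.2).1, Finset.filter_filter]
      congr 1
      apply Finset.filter_congr
      intro M _
      constructor
      · exact fun h => h.2
      · intro h
        exact ⟨by rw [h]; exact hG.2, h⟩
    rw [Finset.sum_congr rfl h2, Finset.sum_const, smul_eq_mul, mul_comm,
      Set.ncard_eq_toFinset_card']
    congr 2
    ext G
    simp
  constructor
  · rw [← hfib _ (fun G h => h)]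
    congr 1
    apply Finset.filter_congr
    intro M hM
    exact ⟨fun h => hGIR2 n g M hg hM h, fun h => hGIR1 n g M hM h⟩
  · obtain ⟨P, hP⟩ : ∃ P : SimpleGraph (Fin n) → Prop, ∀ G, P G ↔ Cubic g G ∧ ¬ Ch3 G :=
      ⟨fun G => Cubic g G ∧ ¬ Ch3 G, fun G => Iff.rfl⟩
    have h0 := hfib P (fun G h => ((hP G).1 h).1)
    have h1 : {G : SimpleGraph (Fin n) | P G} =
        {G : SimpleGraph (Fin n) | Cubic g G ∧ ¬ Ch3 G} := by
      ext G
      exact hP G
    rw [h1] at h0
    rw [← h0]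
    apply Finset.card_le_card
    intro M hM
    rw [Finset.mem_filter] at hM
    have hM2 := (hP _).1 hM.2
    rw [Finset.mem_filter, Finset.mem_filter]
    refine ⟨⟨hM.1, hGIR1 n g M hM.1 hM2.1⟩, ?_⟩
    by_contra hX
    exact hM2.2 (hATL n M hM.1 (Cubic.three hg hM2.1) hX)

theorem st_MAIN5 (hCARD : ST_CARD) (hPOSG : ST_POSG) (hFIBG : ST_FIBG) (hGIR1 : ST_GIR1)
    (hGIR2 : ST_GIR2) (hSERT : ST_SERT) (hCM : ST_CM) (hEND : ST_END) (hATL : ST_ATL) :
    ST_MAIN5 := by
  classical
  intro g hg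
  have hlim := end_app hCARD hSERT hCM hEND g hg
  obtain ⟨c, hc, hpos⟩ := hPOSG g
  have h1 : Tendsto (fun N : ℕ => 1 - (((((PM (univ : Finset (HE (2 * N)))).filter
      (fun M => NoShort g M)).filter (fun M => Zc M = 0)).card : ℝ) /
      ((PM (univ : Finset (HE (2 * N)))).card : ℝ)) / c) atTop (𝓝 1) := by
    have := (hlim.div_const c).const_sub 1
    simpa using this
  have hsplit : ∀ N : ℕ, {G : SimpleGraph (Fin (2 * N)) | Cubic g G}.ncard =
      {G : SimpleGraph (Fin (2 * N)) | Cubic g G ∧ Ch3 G}.ncard +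
      {G : SimpleGraph (Fin (2 * N)) | Cubic g G ∧ ¬ Ch3 G}.ncard := by
    intro N
    rw [← Set.ncard_union_eq]
    · congr 1
      ext G
      constructor
      · intro h
        by_cases h' : Ch3 G
        · exact Or.inl ⟨h, h'⟩
        · exact Or.inr ⟨h, h'⟩
      · rintro (h | h)
        · exact h.1
        · exact h.1
    · rw [Set.disjoint_left]
      intro G h h'
      exact h'.2 h.2
  refine tendsto_of_tendsto_of_tendsto_of_le_of_le' h1 tendsto_const_nhds ?_ ?_
  · filter_upwards [hpos] with N hN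
    obtain ⟨k1, k2⟩ := count hFIBG hGIR1 hGIR2 hATL (2 * N) g hg
    have hPM : (0 : ℝ) < ((PM (univ : Finset (HE (2 * N)))).card : ℝ) := by
      exact_mod_cast card_PM hCARD N
    obtain ⟨p, hp⟩ : ∃ p : ℝ, p = ((PM (univ : Finset (HE (2 * N)))).card : ℝ) := ⟨_, rfl⟩
    obtain ⟨a, ha⟩ : ∃ a : ℕ, a = ((PM (univ : Finset (HE (2 * N)))).filter
      (fun M => NoShort g M)).card := ⟨_, rfl⟩
    obtain ⟨b, hb⟩ : ∃ b : ℕ, b = (((PM (univ : Finset (HE (2 * N)))).filter
      (fun M => NoShort g M)).filter (fun M => Zc M = 0)).card := ⟨_, rfl⟩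
    have hs := hsplit N
    obtain ⟨x, hx⟩ : ∃ x : ℕ, x = {G : SimpleGraph (Fin (2 * N)) | Cubic g G}.ncard := ⟨_, rfl⟩
    obtain ⟨y, hy⟩ : ∃ y : ℕ, y =
      {G : SimpleGraph (Fin (2 * N)) | Cubic g G ∧ Ch3 G}.ncard := ⟨_, rfl⟩
    obtain ⟨z, hz⟩ : ∃ z : ℕ, z =
      {G : SimpleGraph (Fin (2 * N)) | Cubic g G ∧ ¬ Ch3 G}.ncard := ⟨_, rfl⟩
    rw [← hp] at hPM hN ⊢
    rw [← ha] at k1 hN
    rw [← hb] at k2 ⊢
    rw [← hx, ← hy, ← hz] at hs
    rw [← hx] at k1 ⊢
    rw [← hz] at k2
    rw [← hy]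
    have h6 : (0 : ℝ) < 6 ^ (2 * N) := by positivity
    have k1' : (a : ℝ) = 6 ^ (2 * N) * x := by rw [k1]; push_cast; rfl
    have k2' : 6 ^ (2 * N) * (z : ℝ) ≤ b := by exact_mod_cast k2
    have hs' : (x : ℝ) = y + z := by rw [hs]; push_cast; rfl
    have hax : 0 < (a : ℝ) := lt_of_lt_of_le (mul_pos hc hPM) hN
    have hx0 : 0 < (x : ℝ) := by
      rw [k1'] at hax
      exact (mul_pos_iff_of_pos_left h6).1 hax
    have hy' : (y : ℝ) / x = 1 - z / x := by
      rw [hs']
      rw [hs'] at hx0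
      field_simp
      ring
    rw [hy']
    have hzx : (z : ℝ) / x ≤ b / p / c := by
      rw [div_div, div_le_div_iff₀ hx0 (mul_pos hPM hc)]
      have h7 : 6 ^ (2 * N) * (z : ℝ) * (p * c) ≤ b * (6 ^ (2 * N) * x) := by
        have hz0 : (0 : ℝ) ≤ b := Nat.cast_nonneg b
        calc 6 ^ (2 * N) * (z : ℝ) * (p * c) ≤ b * (p * c) :=
              mul_le_mul_of_nonneg_right k2' (mul_pos hPM hc).le
          _ ≤ b * (6 ^ (2 * N) * x) := by
              refine mul_le_mul_of_nonneg_left ?_ hz0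
              rw [← k1', mul_comm p c]
              exact hN
      have h8 : 6 ^ (2 * N) * ((z : ℝ) * (p * c)) ≤ 6 ^ (2 * N) * (b * x) := by
        linarith
      exact le_of_mul_le_mul_left h8 h6
    linarith
  · refine Filter.Eventually.of_forall fun N => ?_
    apply div_le_one_of_le₀ _ (Nat.cast_nonneg _)
    rw [hsplit N]
    push_cast
    linarith [Nat.cast_nonneg (α := ℝ)
      ({G : SimpleGraph (Fin (2 * N)) | Cubic g G ∧ ¬ Ch3 G}.ncard)]

end Pool.Agent.Helper76.T5
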