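import Pool.Agent.Helper46.T5.Defs

/-!
# Rotations of the 3-space and quaternions
-/

set_option autoImplicit false

open Finset MeasureTheory

namespace Pool.Agent.Helper76.T5

open Pool.Agent.Helper15.T4 Pool.Agent.Helper46.T5

/-- The rotation matrix (up to the factor `|q|²`) of a quaternion. -/
def Qm (q : Fin 4 → ℝ) : M3 :=
  !![q 0 ^ 2 + q 1 ^ 2 - q 2 ^ 2 - q 3 ^ 2, 2 * (q 1 * q 2 - q 0 * q 3), 2 * (q 1 * q 3 + q 0 * q 2);
     2 * (q 1 * q 2 + q 0 * q 3), q 0 ^ 2 - q 1 ^ 2 + q 2 ^ 2 - q 3 ^ 2, 2 * (q 2 * q 3 - q 0 * q 1);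
     2 * (q 1 * q 3 - q 0 * q 2), 2 * (q 2 * q 3 + q 0 * q 1), q 0 ^ 2 - q 1 ^ 2 - q 2 ^ 2 + q 3 ^ 2]

/-- The product of quaternions. -/
def qmul (p q : Fin 4 → ℝ) : Fin 4 → ℝ :=
  ![p 0 * q 0 - p 1 * q 1 - p 2 * q 2 - p 3 * q 3,
    p 0 * q 1 + p 1 * q 0 + p 2 * q 3 - p 3 * q 2,
    p 0 * q 2 - p 1 * q 3 + p 2 * q 0 + p 3 * q 1,
    p 0 * q 3 + p 1 * q 2 - p 2 * q 1 + p 3 * q 0]

/-- The conjugate quaternion. -/
def qconj (q : Fin 4 → ℝ) : Fin 4 → ℝ := ![q 0, -q 1, -q 2, -q 3]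

theorem nsq4 (q : Fin 4 → ℝ) : nsq q = q 0 ^ 2 + q 1 ^ 2 + q 2 ^ 2 + q 3 ^ 2 := by
  unfold nsq
  rw [Fin.sum_univ_four]

theorem nsq3 (q : Fin 3 → ℝ) : nsq q = q 0 ^ 2 + q 1 ^ 2 + q 2 ^ 2 := by
  unfold nsq
  rw [Fin.sum_univ_three]

theorem nsq_qmul (p q : Fin 4 → ℝ) : nsq (qmul p q) = nsq p * nsq q := by
  simp only [nsq4, qmul, Matrix.cons_val_zero, Matrix.cons_val_one, Matrix.cons_val]
  ring

theorem nsq_qconj (q : Fin 4 → ℝ) : nsq (qconj q) = nsq q := by
  simp only [nsq4, qconj, Matrix.cons_val_zero, Matrix.cons_val_one, Matrix.cons_val]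
  ring

theorem Qm_mul (p q : Fin 4 → ℝ) : Qm p * Qm q = Qm (qmul p q) := by
  ext i j
  fin_cases i <;> fin_cases j <;>
    simp [Qm, qmul, Matrix.mul_apply, Fin.sum_univ_three] <;> ring

theorem Qm_transpose (q : Fin 4 → ℝ) : (Qm q).transpose = Qm (qconj q) := by
  ext i j
  fin_cases i <;> fin_cases j <;>
    simp [Qm, qconj, Matrix.transpose_apply] <;> ring

theorem Qm_mul_transpose (q : Fin 4 → ℝ) : Qm q * (Qm q).transpose = (nsq q ^ 2) • (1 : M3) := by
  rw [nsq4]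
  ext i j
  fin_cases i <;> fin_cases j <;>
    simp [Qm, Matrix.mul_apply, Fin.sum_univ_three, Matrix.transpose_apply] <;> ring

theorem Qm_det (q : Fin 4 → ℝ) : (Qm q).det = nsq q ^ 3 := by
  rw [nsq4, Matrix.det_fin_three]
  simp [Qm]
  ring

theorem Qm_smul (t : ℝ) (q : Fin 4 → ℝ) : Qm (t • q) = (t ^ 2) • Qm q := by
  ext i j
  fin_cases i <;> fin_cases j <;> simp [Qm] <;> ring

/-- The normalised rotation matrix. -/
noncomputable def Rq (q : Fin 4 → ℝ) : M3 := (nsq q)⁻¹ • Qm q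

theorem Rq_mul (p q : Fin 4 → ℝ) : Rq p * Rq q = Rq (qmul p q) := by
  unfold Rq
  rw [nsq_qmul, Matrix.smul_mul, Matrix.mul_smul, Qm_mul, smul_smul, mul_inv]

theorem Rq_transpose (q : Fin 4 → ℝ) : (Rq q).transpose = Rq (qconj q) := by
  unfold Rq
  rw [nsq_qconj, Matrix.transpose_smul, Qm_transpose]

theorem Rq_SO3 {q : Fin 4 → ℝ} (hq : nsq q ≠ 0) : SO3 (Rq q) := by
  constructor
  · unfold Rq
    rw [Matrix.transpose_smul, Matrix.smul_mul, Matrix.mul_smul, Qm_mul_transpose, smul_smul,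
      smul_smul]
    have : (nsq q)⁻¹ * ((nsq q)⁻¹ * nsq q ^ 2) = 1 := by
      field_simp
    rw [← mul_assoc] at this
    rw [this, one_smul]
  · unfold Rq
    rw [Matrix.det_smul, Qm_det, Fintype.card_fin, ← mul_pow, inv_mul_cancel₀ hq, one_pow]

theorem Rq_smul {t : ℝ} (ht : t ≠ 0) (q : Fin 4 → ℝ) : Rq (t • q) = Rq q := by
  have h : nsq (t • q) = t ^ 2 * nsq q := by
    rw [nsq4, nsq4]
    simp only [Pi.smul_apply, smul_eq_mul]
    ring
  unfold Rq
  rw [h, Qm_smul, smul_smul, mul_inv, mul_right_comm, inv_mul_cancel₀ (pow_ne_zero 2 ht), one_mul]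

/-- The quaternion `1 + v`. -/
def q1v (v : Fin 3 → ℝ) : Fin 4 → ℝ := ![1, v 0, v 1, v 2]

theorem nsq_q1v (v : Fin 3 → ℝ) : nsq (q1v v) = 1 + nsq v := by
  rw [nsq4, nsq3]
  simp [q1v]
  ring

theorem nsq_nonneg' {ι : Type} [Fintype ι] (x : ι → ℝ) : 0 ≤ nsq x := by
  unfold nsq
  exact Finset.sum_nonneg fun i _ => sq_nonneg _

theorem Cay_eq (v : Fin 3 → ℝ) : Cay v = Rq (q1v v) := by
  unfold Cay Rq
  rw [nsq_q1v]
  congr 1
  rw [nsq3]
  ext i j
  fin_cases i <;> fin_cases j <;>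
    simp [Qm, q1v, skew, Matrix.vecMulVec_apply] <;> ring

/-- **CAY** -/
theorem Cay_SO3 (v : Fin 3 → ℝ) : SO3 (Cay v) := by
  rw [Cay_eq]
  refine Rq_SO3 ?_
  rw [nsq_q1v]
  have := nsq_nonneg' v
  positivity

/-! ### every rotation comes from a quaternion -/

theorem so3_mul {A B : M3} (hA : SO3 A) (hB : SO3 B) : SO3 (A * B) := by
  constructor
  · rw [Matrix.transpose_mul, Matrix.mul_assoc, ← Matrix.mul_assoc B, hB.1, Matrix.one_mul, hA.1]
  · rw [Matrix.det_mul, hA.2, hB.2, one_mul]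

theorem so3_transpose {A : M3} (hA : SO3 A) : SO3 A.transpose := by
  refine ⟨?_, by rw [Matrix.det_transpose, hA.2]⟩
  rw [Matrix.transpose_transpose]
  exact mul_eq_one_comm.1 hA.1

/-- the relations of a rotation matrix -/
theorem so3_rel {A : M3} (hA : SO3 A) :
    (∀ i j, ∑ k, A i k * A j k = if i = j then 1 else 0) ∧
    (∀ i j, ∑ k, A k i * A k j = if i = j then 1 else 0) ∧ A.adjugate = A.transpose := by
  refine ⟨fun i j => ?_, fun i j => ?_, ?_⟩
  · have := congrFun (congrFun hA.1 i) j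
    rw [Matrix.mul_apply, Matrix.one_apply] at this
    simpa [Matrix.transpose_apply] using this
  · have h2 := mul_eq_one_comm.1 hA.1
    have := congrFun (congrFun h2 i) j
    rw [Matrix.mul_apply, Matrix.one_apply] at this
    simpa [Matrix.transpose_apply] using this
  · have h1 : A * A.adjugate = 1 := by rw [Matrix.mul_adjugate, hA.2, one_smul]
    have h2 := mul_eq_one_comm.1 hA.1
    calc A.adjugate = (A.transpose * A) * A.adjugate := by rw [h2, Matrix.one_mul]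
      _ = A.transpose := by rw [Matrix.mul_assoc, h1, Matrix.mul_one]

theorem so3_exists_of_pos {A : M3} (hA : SO3 A) (hs : 0 < 1 + A 0 0 + A 1 1 + A 2 2) :
    ∃ q : Fin 4 → ℝ, nsq q ≠ 0 ∧ A = Rq q := by
  obtain ⟨hr, hc, hadj⟩ := so3_rel hA
  set s : ℝ := 1 + A 0 0 + A 1 1 + A 2 2 with hsdef
  -- the entries of the cofactor matrix
  have c00 : A 0 0 = A 1 1 * A 2 2 - A 1 2 * A 2 1 := by
    have := congrFun (congrFun hadj 0) 0
    rw [Matrix.adjugate_fin_three] at this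
    simp at this
    linarith
  have c11 : A 1 1 = A 0 0 * A 2 2 - A 0 2 * A 2 0 := by
    have := congrFun (congrFun hadj 1) 1
    rw [Matrix.adjugate_fin_three] at this
    simp at this
    linarith
  have c22 : A 2 2 = A 0 0 * A 1 1 - A 0 1 * A 1 0 := by
    have := congrFun (congrFun hadj 2) 2
    rw [Matrix.adjugate_fin_three] at this
    simp at this
    linarith
  have c01 : A 0 1 = A 1 2 * A 2 0 - A 1 0 * A 2 2 := by
    have := congrFun (congrFun hadj 1) 0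
    rw [Matrix.adjugate_fin_three] at this
    simp at this
    linarith
  have c10 : A 1 0 = A 0 2 * A 2 1 - A 0 1 * A 2 2 := by
    have := congrFun (congrFun hadj 0) 1
    rw [Matrix.adjugate_fin_three] at this
    simp at this
    linarith
  have c02 : A 0 2 = A 1 0 * A 2 1 - A 1 1 * A 2 0 := by
    have := congrFun (congrFun hadj 2) 0
    rw [Matrix.adjugate_fin_three] at this
    simp at this
    linarith
  have c20 : A 2 0 = A 0 1 * A 1 2 - A 0 2 * A 1 1 := by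
    have := congrFun (congrFun hadj 0) 2
    rw [Matrix.adjugate_fin_three] at this
    simp at this
    linarith
  have c12 : A 1 2 = A 0 1 * A 2 0 - A 0 0 * A 2 1 := by
    have := congrFun (congrFun hadj 2) 1
    rw [Matrix.adjugate_fin_three] at this
    simp at this
    linarith
  have c21 : A 2 1 = A 0 2 * A 1 0 - A 0 0 * A 1 2 := by
    have := congrFun (congrFun hadj 1) 2
    rw [Matrix.adjugate_fin_three] at this
    simp at this
    linarith
  have r00 := hr 0 0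
  have r11 := hr 1 1
  have r22 := hr 2 2
  have r01 := hr 0 1
  have r02 := hr 0 2
  have r12 := hr 1 2
  have k00 := hc 0 0
  have k11 := hc 1 1
  have k22 := hc 2 2
  have k01 := hc 0 1
  have k02 := hc 0 2
  have k12 := hc 1 2
  simp only [Fin.sum_univ_three, if_true] at r00 r11 r22 k00 k11 k22
  rw [Fin.sum_univ_three, if_neg (by decide)] at r01 r02 r12 k01 k02 k12
  -- squares of the axial vector
  have d0 : (A 2 1 - A 1 2) ^ 2 = s * (1 + A 0 0 - A 1 1 - A 2 2) := by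
    rw [hsdef]
    linear_combination r11 + r22 - k00 - 2 * c00
  have d1 : (A 0 2 - A 2 0) ^ 2 = s * (1 - A 0 0 + A 1 1 - A 2 2) := by
    rw [hsdef]
    linear_combination r00 + r22 - k11 - 2 * c11
  have d2 : (A 1 0 - A 0 1) ^ 2 = s * (1 - A 0 0 - A 1 1 + A 2 2) := by
    rw [hsdef]
    linear_combination r00 + r11 - k22 - 2 * c22
  have e01 : (A 2 1 - A 1 2) * (A 0 2 - A 2 0) = s * (A 0 1 + A 1 0) := by
    rw [hsdef]
    linear_combination -c01 - c10 - k01 - r01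
  have e02 : (A 2 1 - A 1 2) * (A 1 0 - A 0 1) = s * (A 0 2 + A 2 0) := by
    rw [hsdef]
    linear_combination -c02 - c20 - k02 - r02
  have e12 : (A 0 2 - A 2 0) * (A 1 0 - A 0 1) = s * (A 1 2 + A 2 1) := by
    rw [hsdef]
    linear_combination -c12 - c21 - k12 - r12
  set q : Fin 4 → ℝ := ![s, A 2 1 - A 1 2, A 0 2 - A 2 0, A 1 0 - A 0 1] with hq
  have hn : nsq q = 4 * s := by
    rw [nsq4, hq]
    simp only [Matrix.cons_val_zero, Matrix.cons_val_one, Matrix.cons_val]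
    rw [d0, d1, d2, hsdef]
    ring
  refine ⟨q, by rw [hn]; positivity, ?_⟩
  have hs0 : s ≠ 0 := hs.ne'
  unfold Rq
  rw [hn]
  have key : (4 * s) • A = Qm q := by
    ext i j
    fin_cases i <;> fin_cases j <;>
      simp only [Qm, hq, Matrix.smul_apply, smul_eq_mul, Matrix.cons_val_zero, Matrix.cons_val_one,
        Matrix.cons_val, Matrix.of_apply, Fin.mk_zero, Fin.mk_one, Fin.reduceFinMk, Fin.zero_eta,
        Fin.isValue]
    · linear_combination -d0 + d1 + d2 + s * hsdef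
    · linear_combination -2 * e01
    · linear_combination -2 * e02
    · linear_combination -2 * e01
    · linear_combination d0 - d1 + d2 + s * hsdef
    · linear_combination -2 * e12
    · linear_combination -2 * e02
    · linear_combination -2 * e12
    · linear_combination d0 + d1 - d2 + s * hsdef
  rw [← key, smul_smul, inv_mul_cancel₀ (by positivity), one_smul]

theorem so3_exists_quat {A : M3} (hA : SO3 A) : ∃ q : Fin 4 → ℝ, nsq q ≠ 0 ∧ A = Rq q := by
  -- half turns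
  have hh : ∀ (p : Fin 4 → ℝ) (hp : nsq p = 1), 0 < 1 + (A * Qm p) 0 0 + (A * Qm p) 1 1
      + (A * Qm p) 2 2 → ∃ q : Fin 4 → ℝ, nsq q ≠ 0 ∧ A = Rq q := by
    intro p hp hpos
    have hR : Rq p = Qm p := by unfold Rq; rw [hp, inv_one, one_smul]
    have hpS : SO3 (Qm p) := by rw [← hR]; exact Rq_SO3 (by rw [hp]; exact one_ne_zero)
    obtain ⟨q, hq, hAq⟩ := so3_exists_of_pos (so3_mul hA hpS) hpos
    refine ⟨qmul q (qconj p), ?_, ?_⟩
    · rw [nsq_qmul, nsq_qconj, hp, mul_one]; exact hq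
    · rw [← Rq_mul, ← Rq_transpose, ← hAq, hR, Matrix.mul_assoc, hpS.1, Matrix.mul_one]
  rcases lt_or_ge 0 (1 + A 0 0 + A 1 1 + A 2 2) with h | h
  · exact so3_exists_of_pos hA h
  rcases lt_or_ge 0 (1 + A 0 0 - A 1 1 - A 2 2) with h1 | h1
  · refine hh ![0, 1, 0, 0] (by simp [nsq4]) ?_
    have : 1 + (A * Qm ![0, 1, 0, 0]) 0 0 + (A * Qm ![0, 1, 0, 0]) 1 1 + (A * Qm ![0, 1, 0, 0]) 2 2
        = 1 + A 0 0 - A 1 1 - A 2 2 := by
      simp [Qm, Matrix.mul_apply, Fin.sum_univ_three]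
      ring
    rw [this]; exact h1
  rcases lt_or_ge 0 (1 - A 0 0 + A 1 1 - A 2 2) with h2 | h2
  · refine hh ![0, 0, 1, 0] (by simp [nsq4]) ?_
    have : 1 + (A * Qm ![0, 0, 1, 0]) 0 0 + (A * Qm ![0, 0, 1, 0]) 1 1 + (A * Qm ![0, 0, 1, 0]) 2 2
        = 1 - A 0 0 + A 1 1 - A 2 2 := by
      simp [Qm, Matrix.mul_apply, Fin.sum_univ_three]
      ring
    rw [this]; exact h2
  · refine hh ![0, 0, 0, 1] (by simp [nsq4]) ?_
    have : 1 + (A * Qm ![0, 0, 0, 1]) 0 0 + (A * Qm ![0, 0, 0, 1]) 1 1 + (A * Qm ![0, 0, 0, 1]) 2 2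
        = 1 - A 0 0 - A 1 1 + A 2 2 := by
      simp [Qm, Matrix.mul_apply, Fin.sum_univ_three]
      ring
    rw [this]; linarith

end Pool.Agent.Helper76.T5
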