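import Mathlib

/-!
# Symmetric trilinear forms on complex inner product spaces: two singular values
-/

set_option autoImplicit false

open scoped ComplexConjugate

namespace Pool.Agent.Helper76.T5

/-- the real inequality behind the estimate of two singular values -/
theorem sing_real {p b1 b2 : ℝ}
    (H1 : ∀ R : ℝ, 1 ≤ R → 3 * (R ^ 2 - 1) * b1 - p ≤ R ^ 3)
    (H2 : ∀ R : ℝ, 1 ≤ R → p + 3 * (R ^ 2 - 1) * b2 ≤ R ^ 3)
    {al be : ℝ} (ha : 0 ≤ al) (hb : 0 ≤ be) :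
    al * b1 + be * b2 ≤ Real.sqrt (al ^ 2 + al * be + be ^ 2) := by
  rcases eq_or_lt_of_le (add_nonneg ha hb) with h0 | h0
  · have h1 : al = 0 := by linarith
    have h2 : be = 0 := by linarith
    subst h1; subst h2
    simp
  set D : ℝ := Real.sqrt (al ^ 2 + al * be + be ^ 2) with hD
  have hab : 0 ≤ al * be := mul_nonneg ha hb
  have hD2 : D ^ 2 = al ^ 2 + al * be + be ^ 2 := by
    rw [hD, Real.sq_sqrt (by positivity)]
  have hDpos : 0 < D := by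
    rw [hD]
    apply Real.sqrt_pos.2
    nlinarith
  have hD1 : D ≤ 2 * al + be := by
    rw [hD]
    refine Real.sqrt_le_iff.2 ⟨by linarith, by nlinarith⟩
  have hD1' : D ≤ al + 2 * be := by
    rw [hD]
    refine Real.sqrt_le_iff.2 ⟨by linarith, by nlinarith⟩
  have e1 := H1 ((2 * al + be) / D) ((one_le_div hDpos).2 hD1)
  have e2 := H2 ((al + 2 * be) / D) ((one_le_div hDpos).2 hD1')
  have f1 : ((2 * al + be) / D) ^ 2 - 1 = 3 * al * (al + be) / D ^ 2 := by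
    rw [div_pow, eq_div_iff (by positivity), sub_mul, div_mul_cancel₀ _ (by positivity), hD2]
    ring
  have f2 : ((al + 2 * be) / D) ^ 2 - 1 = 3 * be * (al + be) / D ^ 2 := by
    rw [div_pow, eq_div_iff (by positivity), sub_mul, div_mul_cancel₀ _ (by positivity), hD2]
    ring
  have f3 : ((2 * al + be) / D) ^ 3 + ((al + 2 * be) / D) ^ 3 = 9 * (al + be) / D := by
    rw [div_pow, div_pow, ← add_div, div_eq_div_iff (by positivity) (by positivity)]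
    have : D ^ 3 = D ^ 2 * D := by ring
    rw [this, hD2]
    ring
  rw [f1] at e1
  rw [f2] at e2
  have e3 : 9 * (al + be) * (al * b1 + be * b2) / D ^ 2 ≤ 9 * (al + be) / D := by
    rw [← f3]
    have : 9 * (al + be) * (al * b1 + be * b2) / D ^ 2
        = 3 * (3 * al * (al + be) / D ^ 2) * b1 + 3 * (3 * be * (al + be) / D ^ 2) * b2 := by
      ring
    rw [this]
    linarith
  rw [div_le_div_iff₀ (by positivity) hDpos] at e3
  have e4 : 9 * (al + be) * D * (al * b1 + be * b2) ≤ 9 * (al + be) * D * D := by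
    nlinarith
  exact le_of_mul_le_mul_left e4 (by positivity)

variable {V : Type*} [NormedAddCommGroup V] [InnerProductSpace ℂ V]

/-- a symmetric trilinear form with `|Φ(x,x,x)| ≤ |x|³` -/
structure IsCub (Φ : V →ₗ[ℂ] V →ₗ[ℂ] V →ₗ[ℂ] ℂ) : Prop where
  s12 : ∀ x y z, Φ x y z = Φ y x z
  s23 : ∀ x y z, Φ x y z = Φ x z y
  bd : ∀ x, ‖Φ x x x‖ ≤ ‖x‖ ^ 3

variable {Φ : V →ₗ[ℂ] V →ₗ[ℂ] V →ₗ[ℂ] ℂ}

theorem IsCub.expand (h : IsCub Φ) (z y : V) :
    Φ (z + y) (z + y) (z + y) + Φ (z - y) (z - y) (z - y) = 2 * (Φ z z z + 3 * Φ z y y) := by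
  have e1 : Φ y z y = Φ z y y := h.s12 y z y
  have e2 : Φ y y z = Φ z y y := by rw [h.s23 y y z, h.s12 y z y]
  simp only [map_add, map_sub, LinearMap.add_apply, LinearMap.sub_apply, e1, e2]
  ring

theorem IsCub.two (h : IsCub Φ) {z y : V} {R : ℝ} (h1 : ‖z + y‖ = R) (h2 : ‖z - y‖ = R) :
    ‖Φ z z z + 3 * Φ z y y‖ ≤ R ^ 3 := by
  have e := h.expand z y
  have e1 := h.bd (z + y)
  have e2 := h.bd (z - y)
  rw [h1] at e1
  rw [h2] at e2
  have e3 : ‖(2 : ℂ) * (Φ z z z + 3 * Φ z y y)‖ ≤ R ^ 3 + R ^ 3 := by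
    rw [← e]
    exact (norm_add_le _ _).trans (add_le_add e1 e2)
  rw [norm_mul] at e3
  have : ‖(2 : ℂ)‖ = 2 := by simp
  rw [this] at e3
  linarith

/-- norms of `z ± t y` for orthogonal (real part) unit vectors -/
theorem norm_add_smul {z y : V} (hz : ‖z‖ = 1) (hy : ‖y‖ = 1)
    (hzy : (inner ℂ z y).re = 0) {R : ℝ} (hR : 1 ≤ R) :
    ‖z + ((Real.sqrt (R ^ 2 - 1) : ℝ) : ℂ) • y‖ = R ∧
      ‖z - ((Real.sqrt (R ^ 2 - 1) : ℝ) : ℂ) • y‖ = R := by
  have h0 : 0 ≤ R ^ 2 - 1 := by nlinarith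
  set t := Real.sqrt (R ^ 2 - 1) with ht
  have ht2 : t ^ 2 = R ^ 2 - 1 := Real.sq_sqrt h0
  have hre : (inner ℂ z ((t : ℂ) • y)).re = 0 := by
    rw [inner_smul_right, Complex.re_ofReal_mul, hzy, mul_zero]
  have hn : ‖(t : ℂ) • y‖ ^ 2 = t ^ 2 := by
    rw [norm_smul, hy, mul_one, Complex.norm_real, Real.norm_eq_abs, sq_abs]
  constructor
  · have h1 : ‖z + (t : ℂ) • y‖ ^ 2 = R ^ 2 := by
      have := @norm_add_sq ℂ V _ _ _ z ((t : ℂ) • y)
      rw [this, hz, hn, ht2]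
      have : RCLike.re (inner ℂ z ((t : ℂ) • y)) = 0 := hre
      rw [this]; ring
    have := (sq_eq_sq₀ (norm_nonneg _) (by linarith)).1 h1
    exact this
  · have h1 : ‖z - (t : ℂ) • y‖ ^ 2 = R ^ 2 := by
      have := @norm_sub_sq ℂ V _ _ _ z ((t : ℂ) • y)
      rw [this, hz, hn, ht2]
      have : RCLike.re (inner ℂ z ((t : ℂ) • y)) = 0 := hre
      rw [this]; ring
    have := (sq_eq_sq₀ (norm_nonneg _) (by linarith)).1 h1
    exact this

theorem IsCub.three (h : IsCub Φ) {z y : V} (hz : ‖z‖ = 1) (hy : ‖y‖ = 1)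
    (hzy : (inner ℂ z y).re = 0) {R : ℝ} (hR : 1 ≤ R) :
    ‖Φ z z z + 3 * ((R ^ 2 - 1 : ℝ) : ℂ) * Φ z y y‖ ≤ R ^ 3 := by
  have h0 : 0 ≤ R ^ 2 - 1 := by nlinarith
  obtain ⟨h1, h2⟩ := norm_add_smul hz hy hzy hR
  have h3 := h.two h1 h2
  have e : Φ z z z + 3 * ((R ^ 2 - 1 : ℝ) : ℂ) * Φ z y y
      = Φ z z z + 3 * Φ z (((Real.sqrt (R ^ 2 - 1) : ℝ) : ℂ) • y)
        (((Real.sqrt (R ^ 2 - 1) : ℝ) : ℂ) • y) := by
    have e0 : ((Real.sqrt (R ^ 2 - 1) : ℝ) : ℂ) * ((Real.sqrt (R ^ 2 - 1) : ℝ) : ℂ)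
        = ((R ^ 2 - 1 : ℝ) : ℂ) := by
      rw [← Complex.ofReal_mul, Real.mul_self_sqrt h0]
    simp only [map_smul, LinearMap.smul_apply, smul_eq_mul]
    rw [← e0]
    ring
  rw [e]
  exact h3

/-- a unit complex number `u` with `Re (u w) = 0` -/
theorem exists_unit_re (w : ℂ) : ∃ u : ℂ, ‖u‖ = 1 ∧ (u * w).re = 0 := by
  by_cases hw : w = 0
  · exact ⟨1, by simp, by simp [hw]⟩
  · refine ⟨Complex.I * conj w / (‖w‖ : ℂ), ?_, ?_⟩
    · rw [norm_div, norm_mul, Complex.norm_I, one_mul, Complex.norm_conj, Complex.norm_real,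
        norm_norm, div_self (norm_ne_zero_iff.2 hw)]
    · have : Complex.I * conj w / (‖w‖ : ℂ) * w = Complex.I * ((‖w‖ : ℝ) : ℂ) := by
        have h1 : conj w * w = ((‖w‖ : ℝ) : ℂ) * ((‖w‖ : ℝ) : ℂ) := by
          rw [mul_comm, Complex.mul_conj, Complex.normSq_eq_norm_sq]; push_cast; ring
        have h2 : ((‖w‖ : ℝ) : ℂ) ≠ 0 := by
          simpa using hw
        field_simp
        rw [pow_two, ← h1]
      rw [this]
      simp

/-- a real unit vector orthogonal to a given one -/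
theorem exists_cs (a b : ℝ) : ∃ c s : ℝ, c ^ 2 + s ^ 2 = 1 ∧ c * a + s * b = 0 := by
  by_cases h : a ^ 2 + b ^ 2 = 0
  · have h1 : a = 0 := by nlinarith
    have h2 : b = 0 := by nlinarith
    exact ⟨1, 0, by ring, by rw [h1, h2]; ring⟩
  · have hpos : 0 < a ^ 2 + b ^ 2 := lt_of_le_of_ne (by positivity) (Ne.symm h)
    set r := Real.sqrt (a ^ 2 + b ^ 2) with hr
    have hr2 : r ^ 2 = a ^ 2 + b ^ 2 := Real.sq_sqrt hpos.le
    have hr0 : 0 < r := Real.sqrt_pos.2 hpos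
    refine ⟨-b / r, a / r, ?_, ?_⟩
    · rw [div_pow, div_pow, ← add_div, hr2, div_eq_one_iff_eq h]; ring
    · field_simp
      ring

/-- two singular values: the case `Φ(z,z,z) ≥ 0` -/
theorem IsCub.sing_pos (h : IsCub Φ) {z e e' : V} {b1 b2 p : ℝ} (hz : ‖z‖ = 1) (he : ‖e‖ = 1)
    (he' : ‖e'‖ = 1) (hee : inner ℂ e e' = 0) (hb1 : Φ z e e = b1) (hb2 : Φ z e' e' = b2)
    (h12 : b2 ≤ b1) (h2 : 0 ≤ b2) (hB : Φ z e e' = 0) (hp : 0 ≤ p) (hzp : Φ z z z = p)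
    {al be : ℝ} (ha : 0 ≤ al) (hb : 0 ≤ be) :
    al * b1 + be * b2 ≤ Real.sqrt (al ^ 2 + al * be + be ^ 2) := by
  refine sing_real (p := p) ?_ ?_ ha hb
  · intro R hR
    have h0 : 0 ≤ R ^ 2 - 1 := by nlinarith
    obtain ⟨u, hu, hu2⟩ := exists_unit_re (inner ℂ z e)
    have h3 := h.three (z := z) (y := u • e) hz (by rw [norm_smul, hu, he, one_mul])
      (by rw [inner_smul_right]; exact hu2) hR
    rw [hzp] at h3
    have e1 : Φ z (u • e) (u • e) = u ^ 2 * b1 := by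
      simp only [map_smul, LinearMap.smul_apply, smul_eq_mul, hb1]
      ring
    rw [e1] at h3
    have h4 : ‖3 * ((R ^ 2 - 1 : ℝ) : ℂ) * (u ^ 2 * b1)‖ - ‖(p : ℂ)‖
        ≤ ‖(p : ℂ) + 3 * ((R ^ 2 - 1 : ℝ) : ℂ) * (u ^ 2 * b1)‖ := by
      have := norm_sub_norm_le (3 * ((R ^ 2 - 1 : ℝ) : ℂ) * (u ^ 2 * b1)) (-(p : ℂ))
      rw [norm_neg, sub_neg_eq_add, add_comm _ (p : ℂ)] at this
      exact this
    have h5 : ‖3 * ((R ^ 2 - 1 : ℝ) : ℂ) * (u ^ 2 * b1)‖ = 3 * (R ^ 2 - 1) * b1 := by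
      rw [norm_mul, norm_mul, norm_mul, norm_pow, hu, one_pow, one_mul, Complex.norm_real,
        Complex.norm_real, Real.norm_of_nonneg h0, Real.norm_of_nonneg (h2.trans h12)]
      norm_num
    have h6 : ‖(p : ℂ)‖ = p := by rw [Complex.norm_real, Real.norm_of_nonneg hp]
    rw [h5, h6] at h4
    exact h4.trans h3
  · intro R hR
    have h0 : 0 ≤ R ^ 2 - 1 := by nlinarith
    obtain ⟨c, s, hcs, hcs0⟩ := exists_cs (inner ℂ z e).re (inner ℂ z e').re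
    set y : V := (c : ℂ) • e + (s : ℂ) • e' with hy
    have hyn : ‖y‖ = 1 := by
      have h1 : ‖y‖ ^ 2 = 1 := by
        have h2 := @norm_add_sq ℂ V _ _ _ ((c : ℂ) • e) ((s : ℂ) • e')
        rw [hy, h2]
        have h3 : inner ℂ ((c : ℂ) • e) ((s : ℂ) • e') = 0 := by
          rw [inner_smul_left, inner_smul_right, hee, mul_zero, mul_zero]
        rw [h3, norm_smul, norm_smul, he, he', Complex.norm_real, Complex.norm_real]
        simp [hcs]
      have := (sq_eq_sq₀ (norm_nonneg y) zero_le_one).1 (by rw [h1, one_pow])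
      exact this
    have hzy : (inner ℂ z y).re = 0 := by
      rw [hy, inner_add_right, inner_smul_right, inner_smul_right, Complex.add_re,
        Complex.re_ofReal_mul, Complex.re_ofReal_mul, hcs0]
    have h3 := h.three hz hyn hzy hR
    have e1 : Φ z y y = ((c ^ 2 * b1 + s ^ 2 * b2 : ℝ) : ℂ) := by
      have e2 : Φ z e' e = 0 := by rw [h.s23, hB]
      rw [hy]
      simp only [map_add, map_smul, LinearMap.add_apply, LinearMap.smul_apply, smul_eq_mul, hb1,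
        hb2, hB, e2]
      push_cast
      ring
    rw [e1, hzp] at h3
    have e3 : (p : ℂ) + 3 * ((R ^ 2 - 1 : ℝ) : ℂ) * ((c ^ 2 * b1 + s ^ 2 * b2 : ℝ) : ℂ)
        = ((p + 3 * (R ^ 2 - 1) * (c ^ 2 * b1 + s ^ 2 * b2) : ℝ) : ℂ) := by
      push_cast; ring
    rw [e3, Complex.norm_real] at h3
    have h4 := (le_abs_self _).trans h3
    have h5 : b2 ≤ c ^ 2 * b1 + s ^ 2 * b2 := by
      have : b2 = c ^ 2 * b2 + s ^ 2 * b2 := by rw [← add_mul, hcs, one_mul]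
      nlinarith [sq_nonneg c]
    have h6 : 3 * (R ^ 2 - 1) * b2 ≤ 3 * (R ^ 2 - 1) * (c ^ 2 * b1 + s ^ 2 * b2) :=
      mul_le_mul_of_nonneg_left h5 (by positivity)
    linarith

/-- two singular values -/
theorem IsCub.sing (h : IsCub Φ) {z e e' : V} {b1 b2 : ℝ} (hz : ‖z‖ = 1) (he : ‖e‖ = 1)
    (he' : ‖e'‖ = 1) (hee : inner ℂ e e' = 0) (hb1 : Φ z e e = b1) (hb2 : Φ z e' e' = b2)
    (h12 : b2 ≤ b1) (h2 : 0 ≤ b2) (hB : Φ z e e' = 0)
    {al be : ℝ} (ha : 0 ≤ al) (hb : 0 ≤ be) :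
    al * b1 + be * b2 ≤ Real.sqrt (al ^ 2 + al * be + be ^ 2) := by
  set P : ℂ := Φ z z z with hP
  -- a phase
  obtain ⟨w, hw, hwP⟩ : ∃ w : ℂ, ‖w‖ = 1 ∧ w ^ 6 * P = (‖P‖ : ℝ) := by
    refine ⟨Complex.exp (((-(P.arg / 6) : ℝ) : ℂ) * Complex.I), ?_, ?_⟩
    · rw [Complex.norm_exp_ofReal_mul_I]
    · rw [← Complex.exp_nat_mul]
      nth_rewrite 2 [← Complex.norm_mul_exp_arg_mul_I P]
      rw [mul_left_comm, ← Complex.exp_add]
      have : (((6 : ℕ) : ℂ) * (((-(P.arg / 6) : ℝ) : ℂ) * Complex.I) + (P.arg : ℂ) * Complex.I) = 0 := by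
        push_cast; ring
      rw [this, Complex.exp_zero, mul_one]
  have hw0 : w ≠ 0 := by
    intro h0; rw [h0, norm_zero] at hw; exact zero_ne_one hw
  have hwi : ‖w⁻¹‖ = 1 := by rw [norm_inv, hw, inv_one]
  refine h.sing_pos (z := w ^ 2 • z) (e := w⁻¹ • e) (e' := w⁻¹ • e') (p := ‖P‖) ?_ ?_ ?_ ?_ ?_ ?_
    h12 h2 ?_ (norm_nonneg _) ?_ ha hb
  · rw [norm_smul, norm_pow, hw, hz]; norm_num
  · rw [norm_smul, hwi, he, one_mul]
  · rw [norm_smul, hwi, he', one_mul]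
  · rw [inner_smul_left, inner_smul_right, hee, mul_zero, mul_zero]
  · simp only [map_smul, LinearMap.smul_apply, smul_eq_mul, hb1]
    field_simp
  · simp only [map_smul, LinearMap.smul_apply, smul_eq_mul, hb2]
    field_simp
  · simp only [map_smul, LinearMap.smul_apply, smul_eq_mul, hB]
    ring
  · simp only [map_smul, LinearMap.smul_apply, smul_eq_mul]
    rw [← hwP, hP]
    ring

end Pool.Agent.Helper76.T5
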