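import Pool.Agent.Helper76.T5.Frame

/-!
# The two singular values of `Φ z` with the estimate (S)
-/

set_option autoImplicit false

open scoped ComplexConjugate

namespace Pool.Agent.Helper76.T5

variable {V : Type*} [NormedAddCommGroup V] [InnerProductSpace ℂ V]
variable {Φ : V →ₗ[ℂ] V →ₗ[ℂ] V →ₗ[ℂ] ℂ}

/-- (TAK) -/
theorem IsCub.tak [FiniteDimensional ℂ V] (h : IsCub Φ) {z : V} (hz : ‖z‖ = 1) :
    ∃ (e : V) (b1 b2 : ℝ), ‖e‖ = 1 ∧ 0 ≤ b2 ∧ b2 ≤ b1 ∧
      (∀ x y, ‖Φ z x y‖ ≤ b1 * (‖inner ℂ e x‖ * ‖inner ℂ e y‖)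
        + b2 * (‖x - inner ℂ e x • e‖ * ‖y - inner ℂ e y • e‖)) ∧
      (∀ al be : ℝ, 0 ≤ al → 0 ≤ be →
        al * b1 + be * b2 ≤ Real.sqrt (al ^ 2 + al * be + be ^ 2)) := by
  haveI : Nontrivial V := ⟨⟨z, 0, fun hz0 => by rw [hz0, norm_zero] at hz; exact zero_ne_one hz⟩⟩
  obtain ⟨e, b1, b2, he, hb2, h12, hee, horth, hbd, halt⟩ :=
    two_vals (Φ z) (fun x y => h.s23 z x y)
  refine ⟨e, b1, b2, he, hb2, h12, ?_, ?_⟩
  · intro x y
    set x' := x - inner ℂ e x • e with hx'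
    set y' := y - inner ℂ e y • e with hy'
    have ox : inner ℂ e x' = 0 := inner_decomp he x
    have oy : inner ℂ e y' = 0 := inner_decomp he y
    have ex : x = inner ℂ e x • e + x' := by rw [hx']; abel
    have ey : y = inner ℂ e y • e + y' := by rw [hy']; abel
    have e1 : Φ z x y = inner ℂ e x * inner ℂ e y * b1 + Φ z x' y' := by
      conv_lhs => rw [ex, ey]
      simp only [map_add, map_smul, LinearMap.add_apply, LinearMap.smul_apply, smul_eq_mul, hee,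
        horth y' oy]
      have : Φ z x' e = 0 := by rw [h.s23]; exact horth x' ox
      rw [this]
      ring
    rw [e1]
    refine (norm_add_le _ _).trans (add_le_add ?_ ?_)
    · rw [norm_mul, norm_mul, Complex.norm_real, Real.norm_of_nonneg (hb2.trans h12)]
      exact le_of_eq (mul_comm _ _)
    · have := hbd x' y' ox oy
      linarith
  · intro al be ha hb
    rcases halt with h0 | ⟨e', he', hee', hb'⟩
    · rw [h0]
      exact h.sing0 hz he hee (hb2.trans h12) ha hb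
    · exact h.sing hz he he' hee' hee hb' h12 hb2 (horth e' hee') ha hb

/-- a singular value `1` is simple: the other one is at most `1 / 2` -/
theorem half_of_one {b1 b2 : ℝ} (hb : 1 ≤ b1)
    (hS : ∀ al be : ℝ, 0 ≤ al → 0 ≤ be →
      al * b1 + be * b2 ≤ Real.sqrt (al ^ 2 + al * be + be ^ 2)) : b2 ≤ 1 / 2 := by
  by_contra hc
  push Not at hc
  set d : ℝ := b2 - 1 / 2 with hd
  have hd0 : 0 < d := by linarith
  have h1 := hS 1 (min 1 d) zero_le_one (by positivity)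
  set t : ℝ := min 1 d with ht
  have ht0 : 0 < t := lt_min one_pos hd0
  have ht1 : t ≤ 1 := min_le_left _ _
  have ht2 : t ≤ d := min_le_right _ _
  have h2 : 1 + t * b2 ≤ Real.sqrt (1 ^ 2 + 1 * t + t ^ 2) := by nlinarith
  have h3 : 0 ≤ 1 + t * b2 := by nlinarith
  have h4 : (1 + t * b2) ^ 2 ≤ 1 ^ 2 + 1 * t + t ^ 2 := by
    have := Real.le_sqrt' (x := 1 + t * b2) (y := 1 ^ 2 + 1 * t + t ^ 2) (by nlinarith)
    exact this.1 h2
  have hb2 : b2 = d + 1 / 2 := by rw [hd]; ring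
  rw [hb2] at h4
  have h5 : 2 * d * t + t ^ 2 * (d + 1 / 2) ^ 2 ≤ t ^ 2 := by nlinarith
  have h6 : 2 * d + t * (d + 1 / 2) ^ 2 ≤ t := by
    have : t * (2 * d + t * (d + 1 / 2) ^ 2) ≤ t * t := by nlinarith
    exact le_of_mul_le_mul_left this ht0
  have : 0 ≤ t * (d + 1 / 2) ^ 2 := by positivity
  linarith

/-- the bound with squares -/
theorem IsCub.thmA_sq [FiniteDimensional ℂ V] (h : IsCub Φ) (x y z : Fin 3 → V) :
    ‖dtf Φ x y z‖ ^ 2 ≤ (∑ i, ‖x i‖ ^ 2) * (∑ i, ‖y i‖ ^ 2) * (∑ i, ‖z i‖ ^ 2) := by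
  have h1 := h.thmA x y z
  have h2 : ‖dtf Φ x y z‖ ^ 2 ≤ (nm x * nm y * nm z) ^ 2 :=
    pow_le_pow_left₀ (norm_nonneg _) h1 2
  rw [mul_pow, mul_pow, nm_sq, nm_sq, nm_sq] at h2
  simpa only [Fin.sum_univ_three] using h2

end Pool.Agent.Helper76.T5
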