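import Pool.Agent.Helper76.T5.Sing

/-!
# Theorem A: the determinant form of a symmetric trilinear form
-/

set_option autoImplicit false

open scoped ComplexConjugate

namespace Pool.Agent.Helper76.T5

variable {V : Type*} [NormedAddCommGroup V] [InnerProductSpace ℂ V]

/-! ### Takagi -/

/-- a symmetric bilinear form attains its norm on the diagonal -/
theorem exists_top [FiniteDimensional ℂ V] [Nontrivial V] (B : V →ₗ[ℂ] V →ₗ[ℂ] ℂ)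
    (hB : ∀ x y, B x y = B y x) :
    ∃ (e : V) (b : ℝ), ‖e‖ = 1 ∧ 0 ≤ b ∧ B e e = b ∧ ∀ x y, ‖B x y‖ ≤ b * ‖x‖ * ‖y‖ := by
  haveI : ProperSpace V := FiniteDimensional.proper ℂ V
  -- continuity
  have hcont : Continuous fun x : V => ‖B x x‖ := by
    set B' : V →L[ℂ] V →L[ℂ] ℂ := LinearMap.toContinuousLinearMap
      ((LinearMap.toContinuousLinearMap : (V →ₗ[ℂ] ℂ) ≃ₗ[ℂ] V →L[ℂ] ℂ).toLinearMap ∘ₗ B) with hB'
    have h1 : (fun x : V => ‖B x x‖) = fun x => ‖B' x x‖ := by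
      funext x
      rfl
    rw [h1]
    exact (B'.continuous.clm_apply continuous_id).norm
  obtain ⟨x0, hx0⟩ : (Metric.sphere (0 : V) 1).Nonempty :=
    NormedSpace.sphere_nonempty.2 zero_le_one
  obtain ⟨m, hm, hmax⟩ := (isCompact_sphere (0 : V) 1).exists_isMaxOn ⟨x0, hx0⟩ hcont.continuousOn
  have hm1 : ‖m‖ = 1 := by simpa using hm
  set b : ℝ := ‖B m m‖ with hb
  have hdiag : ∀ x, ‖B x x‖ ≤ b * ‖x‖ ^ 2 := by
    intro x
    by_cases hx : x = 0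
    · subst hx; simp
    · have hx0 : ‖x‖ ≠ 0 := norm_ne_zero_iff.2 hx
      have h1 : ((‖x‖⁻¹ : ℝ) : ℂ) • x ∈ Metric.sphere (0 : V) 1 := by
        simp [norm_smul, hx0]
      have h2 := hmax h1
      simp only [Set.mem_ofPred_eq, map_smul, LinearMap.smul_apply, smul_eq_mul, norm_mul,
        Complex.norm_real, norm_inv, norm_norm] at h2
      rw [← hb] at h2
      have h3 : ‖x‖⁻¹ * (‖x‖⁻¹ * ‖B x x‖) * ‖x‖ ^ 2 ≤ b * ‖x‖ ^ 2 :=
        mul_le_mul_of_nonneg_right h2 (by positivity)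
      have h4 : ‖x‖⁻¹ * (‖x‖⁻¹ * ‖B x x‖) * ‖x‖ ^ 2 = ‖B x x‖ := by
        field_simp
      rwa [h4] at h3
  have hb0 : 0 ≤ b := norm_nonneg _
  -- the bound for unit vectors
  have hunit : ∀ x y : V, ‖x‖ = 1 → ‖y‖ = 1 → ‖B x y‖ ≤ b := by
    intro x y hx hy
    have h1 : B (x + y) (x + y) - B (x - y) (x - y) = 4 * B x y := by
      simp only [map_add, map_sub, LinearMap.add_apply, LinearMap.sub_apply, hB y x]
      ring
    have h2 : ‖(4 : ℂ) * B x y‖ ≤ b * ‖x + y‖ ^ 2 + b * ‖x - y‖ ^ 2 := by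
      rw [← h1]
      exact (norm_sub_le _ _).trans (add_le_add (hdiag _) (hdiag _))
    have h3 : ‖x + y‖ ^ 2 + ‖x - y‖ ^ 2 = 4 := by
      have := parallelogram_law_with_norm ℂ x y
      rw [hx, hy] at this
      nlinarith
    rw [norm_mul, ← mul_add, h3] at h2
    have : ‖(4 : ℂ)‖ = 4 := by simp
    rw [this] at h2
    linarith
  -- the phase
  obtain ⟨u, hu, hu2⟩ : ∃ u : ℂ, ‖u‖ = 1 ∧ u ^ 2 * B m m = (b : ℝ) := by
    refine ⟨Complex.exp (((-((B m m).arg / 2) : ℝ) : ℂ) * Complex.I), ?_, ?_⟩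
    · rw [Complex.norm_exp_ofReal_mul_I]
    · rw [← Complex.exp_nat_mul]
      nth_rewrite 2 [← Complex.norm_mul_exp_arg_mul_I (B m m)]
      rw [mul_left_comm, ← Complex.exp_add]
      have : (((2 : ℕ) : ℂ) * (((-((B m m).arg / 2) : ℝ) : ℂ) * Complex.I)
          + ((B m m).arg : ℂ) * Complex.I) = 0 := by
        push_cast; ring
      rw [this, Complex.exp_zero, mul_one]
  refine ⟨u • m, b, by rw [norm_smul, hu, hm1, one_mul], hb0, ?_, ?_⟩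
  · simp only [map_smul, LinearMap.smul_apply, smul_eq_mul]
    rw [← mul_assoc, ← pow_two, hu2]
  · intro x y
    by_cases hx : x = 0
    · subst hx; simp
    by_cases hy : y = 0
    · subst hy; simp
    have hx0 : ‖x‖ ≠ 0 := norm_ne_zero_iff.2 hx
    have hy0 : ‖y‖ ≠ 0 := norm_ne_zero_iff.2 hy
    have h1 := hunit (((‖x‖⁻¹ : ℝ) : ℂ) • x) (((‖y‖⁻¹ : ℝ) : ℂ) • y)
      (by simp [norm_smul, hx0]) (by simp [norm_smul, hy0])
    simp only [map_smul, LinearMap.smul_apply, smul_eq_mul, norm_mul,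
        Complex.norm_real, norm_inv, norm_norm] at h1
    have h3 : ‖y‖⁻¹ * (‖x‖⁻¹ * ‖B x y‖) * (‖x‖ * ‖y‖) ≤ b * (‖x‖ * ‖y‖) :=
      mul_le_mul_of_nonneg_right (by linarith) (by positivity)
    have h4 : ‖y‖⁻¹ * (‖x‖⁻¹ * ‖B x y‖) * (‖x‖ * ‖y‖) = ‖B x y‖ := by
      field_simp
    rw [h4] at h3
    linarith

/-- the top vector is orthogonal (for the form) to its orthogonal complement -/
theorem top_orth (B : V →ₗ[ℂ] V →ₗ[ℂ] ℂ) {e : V} {b : ℝ} (he : ‖e‖ = 1) (hb : 0 ≤ b)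
    (hee : B e e = b) (hbd : ∀ x y, ‖B x y‖ ≤ b * ‖x‖ * ‖y‖) {w : V} (hw : inner ℂ e w = 0) :
    B e w = 0 := by
  by_contra hne
  set m : ℝ := ‖B e w‖ with hm
  have hm0 : 0 < m := norm_pos_iff.2 hne
  have key : ∀ δ : ℝ, 0 < δ → (b + δ * m ^ 2) ^ 2 ≤ b ^ 2 * (1 + δ ^ 2 * m ^ 2 * ‖w‖ ^ 2) := by
    intro δ hδ
    set v : V := e + ((δ : ℂ) * conj (B e w)) • w with hv
    have h1 : B e v = ((b + δ * m ^ 2 : ℝ) : ℂ) := by
      rw [hv, map_add, map_smul, hee, smul_eq_mul, mul_assoc, mul_comm (conj (B e w)),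
        Complex.mul_conj, Complex.normSq_eq_norm_sq, ← hm]
      push_cast; ring
    have h2 := hbd e v
    rw [h1, Complex.norm_real, Real.norm_of_nonneg (by positivity), he, mul_one] at h2
    have h3 : ‖v‖ ^ 2 = 1 + δ ^ 2 * m ^ 2 * ‖w‖ ^ 2 := by
      have := @norm_add_sq ℂ V _ _ _ e (((δ : ℂ) * conj (B e w)) • w)
      rw [hv, this, inner_smul_right, hw, mul_zero, he, norm_smul, norm_mul, Complex.norm_real,
        Complex.norm_conj, ← hm, Real.norm_of_nonneg hδ.le]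
      simp only [map_zero, mul_zero]
      ring
    calc (b + δ * m ^ 2) ^ 2 ≤ (b * ‖v‖) ^ 2 := by
          apply pow_le_pow_left₀ (by positivity) h2
      _ = b ^ 2 * (1 + δ ^ 2 * m ^ 2 * ‖w‖ ^ 2) := by rw [mul_pow, h3]
  -- `2 b ≤ δ (b² ‖w‖² - m²)`
  have key2 : ∀ δ : ℝ, 0 < δ → 2 * b ≤ δ * (b ^ 2 * ‖w‖ ^ 2 - m ^ 2) := by
    intro δ hδ
    have h1 := key δ hδ
    have h2 : δ * m ^ 2 * (2 * b) ≤ δ * m ^ 2 * (δ * (b ^ 2 * ‖w‖ ^ 2 - m ^ 2)) := by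
      nlinarith
    exact le_of_mul_le_mul_left h2 (by positivity)
  rcases eq_or_lt_of_le hb with h0 | h0
  · have h1 := key2 1 one_pos
    rw [← h0] at h1
    nlinarith
  · have h1 := key2 (b / (b ^ 2 * ‖w‖ ^ 2 + 1)) (by positivity)
    have h2 : b / (b ^ 2 * ‖w‖ ^ 2 + 1) * (b ^ 2 * ‖w‖ ^ 2 - m ^ 2) ≤ b := by
      rw [div_mul_eq_mul_div, div_le_iff₀ (by positivity)]
      nlinarith [sq_nonneg m, mul_pos h0 (sq_pos_of_pos hm0)]
    linarith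

/-- the two largest singular values of a symmetric form -/
theorem two_vals [FiniteDimensional ℂ V] [Nontrivial V] (B : V →ₗ[ℂ] V →ₗ[ℂ] ℂ)
    (hB : ∀ x y, B x y = B y x) :
    ∃ (e : V) (b1 b2 : ℝ), ‖e‖ = 1 ∧ 0 ≤ b2 ∧ b2 ≤ b1 ∧ B e e = b1 ∧
      (∀ w, inner ℂ e w = 0 → B e w = 0) ∧
      (∀ x y, inner ℂ e x = 0 → inner ℂ e y = 0 → ‖B x y‖ ≤ b2 * ‖x‖ * ‖y‖) ∧
      (b2 = 0 ∨ ∃ e' : V, ‖e'‖ = 1 ∧ inner ℂ e e' = 0 ∧ B e' e' = b2) := by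
  obtain ⟨e, b1, he, hb1, hee, hbd⟩ := exists_top B hB
  have horth : ∀ w, inner ℂ e w = 0 → B e w = 0 := fun w hw => top_orth B he hb1 hee hbd hw
  set W : Submodule ℂ V := (ℂ ∙ e)ᗮ with hW
  have hmem : ∀ x : V, inner ℂ e x = 0 ↔ x ∈ W := by
    intro x
    rw [hW, Submodule.mem_orthogonal_singleton_iff_inner_right]
  by_cases hne : Nontrivial W
  · set BW : W →ₗ[ℂ] W →ₗ[ℂ] ℂ := B.compl₁₂ W.subtype W.subtype with hBW
    have hBWa : ∀ x y : W, BW x y = B x y := fun x y => rfl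
    obtain ⟨e', b2, he', hb2, hee', hbd'⟩ := exists_top BW (fun x y => by
      rw [hBWa, hBWa, hB])
    have h12 : b2 ≤ b1 := by
      have := hbd (e' : V) (e' : V)
      rw [← hBWa, hee', Complex.norm_real, Real.norm_of_nonneg hb2] at this
      have h1 : ‖(e' : V)‖ = 1 := he'
      rw [h1] at this
      linarith
    refine ⟨e, b1, b2, he, hb2, h12, hee, horth, ?_, Or.inr ⟨(e' : V), he', ?_, ?_⟩⟩
    · intro x y hx hy
      exact hbd' ⟨x, (hmem x).1 hx⟩ ⟨y, (hmem y).1 hy⟩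
    · exact (hmem _).2 e'.2
    · rw [← hBWa, hee']
  · refine ⟨e, b1, 0, he, le_rfl, hb1, hee, horth, ?_, Or.inl rfl⟩
    intro x y hx _
    have h1 : x = 0 := by
      by_contra hx0
      exact hne ⟨⟨⟨x, (hmem x).1 hx⟩, 0, fun h => hx0 (congrArg Subtype.val h)⟩⟩
    subst h1
    simp

variable {Φ : V →ₗ[ℂ] V →ₗ[ℂ] V →ₗ[ℂ] ℂ}

/-- the case of one singular value -/
theorem IsCub.sing0 (h : IsCub Φ) {z e : V} {b1 : ℝ} (hz : ‖z‖ = 1) (he : ‖e‖ = 1)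
    (hb1 : Φ z e e = b1) (h1 : 0 ≤ b1)
    {al be : ℝ} (ha : 0 ≤ al) (hb : 0 ≤ be) :
    al * b1 + be * 0 ≤ Real.sqrt (al ^ 2 + al * be + be ^ 2) := by
  refine sing_real (p := ‖Φ z z z‖) ?_ ?_ ha hb
  · intro R hR
    have h0 : 0 ≤ R ^ 2 - 1 := by nlinarith
    obtain ⟨u, hu, hu2⟩ := exists_unit_re (inner ℂ z e)
    have h3 := h.three (z := z) (y := u • e) hz (by rw [norm_smul, hu, he, one_mul])
      (by rw [inner_smul_right]; exact hu2) hR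
    have e1 : Φ z (u • e) (u • e) = u ^ 2 * b1 := by
      simp only [map_smul, LinearMap.smul_apply, smul_eq_mul, hb1]
      ring
    rw [e1] at h3
    have h4 : ‖3 * ((R ^ 2 - 1 : ℝ) : ℂ) * (u ^ 2 * b1)‖ - ‖Φ z z z‖
        ≤ ‖Φ z z z + 3 * ((R ^ 2 - 1 : ℝ) : ℂ) * (u ^ 2 * b1)‖ := by
      have := norm_sub_norm_le (3 * ((R ^ 2 - 1 : ℝ) : ℂ) * (u ^ 2 * b1)) (-(Φ z z z))
      rw [norm_neg, sub_neg_eq_add, add_comm _ (Φ z z z)] at this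
      exact this
    have h5 : ‖3 * ((R ^ 2 - 1 : ℝ) : ℂ) * (u ^ 2 * b1)‖ = 3 * (R ^ 2 - 1) * b1 := by
      rw [norm_mul, norm_mul, norm_mul, norm_pow, hu, one_pow, one_mul, Complex.norm_real,
        Complex.norm_real, Real.norm_of_nonneg h0, Real.norm_of_nonneg h1]
      norm_num
    rw [h5] at h4
    exact h4.trans h3
  · intro R hR
    have := h.bd z
    rw [hz, one_pow] at this
    have h2 : 1 ≤ R ^ 3 := one_le_pow₀ hR
    linarith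

/-- the real inequality of (P) -/
theorem pair_real {x1 x1' x2 x2' y1 y1' y2 y2' X1 X2 Y1 Y2 b1 b2 : ℝ}
    (hx1 : 0 ≤ x1) (hx1' : 0 ≤ x1') (hx2 : 0 ≤ x2) (hx2' : 0 ≤ x2')
    (hy1 : 0 ≤ y1) (hy1' : 0 ≤ y1') (hy2 : 0 ≤ y2) (hy2' : 0 ≤ y2')
    (hX1 : 0 ≤ X1) (hX2 : 0 ≤ X2) (hY1 : 0 ≤ Y1) (hY2 : 0 ≤ Y2)
    (e1 : x1 ^ 2 + x1' ^ 2 = X1 ^ 2) (e2 : x2 ^ 2 + x2' ^ 2 = X2 ^ 2)
    (e3 : y1 ^ 2 + y1' ^ 2 = Y1 ^ 2) (e4 : y2 ^ 2 + y2' ^ 2 = Y2 ^ 2)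
    (o1 : x1 * y1 ≤ x1' * y1') (o2 : x2 * y2 ≤ x2' * y2') (h2 : 0 ≤ b2) (h12 : b2 ≤ b1) :
    (b1 * (x1 * y2) + b2 * (x1' * y2')) + (b1 * (x2 * y1) + b2 * (x2' * y1'))
      ≤ max (X1 * Y2) (X2 * Y1) * b1 + min (X1 * Y2) (X2 * Y1) * b2 := by
  set m := max (X1 * Y2) (X2 * Y1) with hm
  have hmx : X1 * Y2 ≤ m := le_max_left _ _
  have hmy : X2 * Y1 ≤ m := le_max_right _ _
  have cs1 : x1 * y2 + x1' * y2' ≤ X1 * Y2 := by
    refine abs_le_of_sq_le_sq' ?_ (by positivity) |>.2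
    rw [mul_pow, ← e1, ← e4]
    nlinarith [sq_nonneg (x1 * y2' - x1' * y2)]
  have cs2 : x2 * y1 + x2' * y1' ≤ X2 * Y1 := by
    refine abs_le_of_sq_le_sq' ?_ (by positivity) |>.2
    rw [mul_pow, ← e2, ← e3]
    nlinarith [sq_nonneg (x2 * y1' - x2' * y1)]
  have le1 : x1 ≤ X1 := by
    refine abs_le_of_sq_le_sq' (by nlinarith [sq_nonneg x1']) hX1 |>.2
  have le2 : x2 ≤ X2 := by
    refine abs_le_of_sq_le_sq' (by nlinarith [sq_nonneg x2']) hX2 |>.2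
  have le3 : y1 ≤ Y1 := by
    refine abs_le_of_sq_le_sq' (by nlinarith [sq_nonneg y1']) hY1 |>.2
  have le4 : y2 ≤ Y2 := by
    refine abs_le_of_sq_le_sq' (by nlinarith [sq_nonneg y2']) hY2 |>.2
  have br : x1 * y2 + x2 * y1 ≤ m := by
    by_cases c1 : X1 = 0
    · have : x1 = 0 := le_antisymm (by rw [← c1]; exact le1) hx1
      rw [this, zero_mul, zero_add]
      exact (mul_le_mul le2 le3 hy1 hX2).trans hmy
    by_cases c2 : Y1 = 0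
    · have : y1 = 0 := le_antisymm (by rw [← c2]; exact le3) hy1
      rw [this, mul_zero, add_zero]
      exact (mul_le_mul le1 le4 hy2 hX1).trans hmx
    by_cases c3 : X2 = 0
    · have : x2 = 0 := le_antisymm (by rw [← c3]; exact le2) hx2
      rw [this, zero_mul, add_zero]
      exact (mul_le_mul le1 le4 hy2 hX1).trans hmx
    by_cases c4 : Y2 = 0
    · have : y2 = 0 := le_antisymm (by rw [← c4]; exact le4) hy2
      rw [this, mul_zero, zero_add]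
      exact (mul_le_mul le2 le3 hy1 hX2).trans hmy
    have p1 : 0 < X1 := lt_of_le_of_ne hX1 (Ne.symm c1)
    have p2 : 0 < Y1 := lt_of_le_of_ne hY1 (Ne.symm c2)
    have p3 : 0 < X2 := lt_of_le_of_ne hX2 (Ne.symm c3)
    have p4 : 0 < Y2 := lt_of_le_of_ne hY2 (Ne.symm c4)
    have q1 : (x1 / X1) ^ 2 + (y1 / Y1) ^ 2 ≤ 1 := by
      rw [div_pow, div_pow, div_add_div _ _ (by positivity) (by positivity),
        div_le_one (by positivity), ← e1, ← e3]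
      nlinarith [mul_self_le_mul_self (mul_nonneg hx1 hy1) o1]
    have q2 : (x2 / X2) ^ 2 + (y2 / Y2) ^ 2 ≤ 1 := by
      rw [div_pow, div_pow, div_add_div _ _ (by positivity) (by positivity),
        div_le_one (by positivity), ← e2, ← e4]
      nlinarith [mul_self_le_mul_self (mul_nonneg hx2 hy2) o2]
    set u1 := x1 / X1 with hu1
    set u2 := x2 / X2 with hu2
    set w1 := y1 / Y1 with hw1
    set w2 := y2 / Y2 with hw2
    have f1 : x1 = X1 * u1 := by rw [hu1]; field_simp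
    have f2 : x2 = X2 * u2 := by rw [hu2]; field_simp
    have f3 : y1 = Y1 * w1 := by rw [hw1]; field_simp
    have f4 : y2 = Y2 * w2 := by rw [hw2]; field_simp
    have g1 : 0 ≤ u1 := div_nonneg hx1 hX1
    have g2 : 0 ≤ u2 := div_nonneg hx2 hX2
    have g3 : 0 ≤ w1 := div_nonneg hy1 hY1
    have g4 : 0 ≤ w2 := div_nonneg hy2 hY2
    have am : u1 * w2 + u2 * w1 ≤ 1 := by
      nlinarith [sq_nonneg (u1 - w2), sq_nonneg (u2 - w1)]
    have hm0 : 0 ≤ m := le_trans (by positivity) hmx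
    calc x1 * y2 + x2 * y1 = (X1 * Y2) * (u1 * w2) + (X2 * Y1) * (u2 * w1) := by
          rw [f1, f2, f3, f4]; ring
      _ ≤ m * (u1 * w2) + m * (u2 * w1) :=
          add_le_add (mul_le_mul_of_nonneg_right hmx (by positivity))
            (mul_le_mul_of_nonneg_right hmy (by positivity))
      _ = m * (u1 * w2 + u2 * w1) := by ring
      _ ≤ m * 1 := mul_le_mul_of_nonneg_left am hm0
      _ = m := mul_one m
  have hsum : m + min (X1 * Y2) (X2 * Y1) = X1 * Y2 + X2 * Y1 := max_add_min _ _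
  have : (b1 * (x1 * y2) + b2 * (x1' * y2')) + (b1 * (x2 * y1) + b2 * (x2' * y1'))
      = b2 * ((x1 * y2 + x1' * y2') + (x2 * y1 + x2' * y1'))
        + (b1 - b2) * (x1 * y2 + x2 * y1) := by ring
  rw [this]
  have h3 : b2 * ((x1 * y2 + x1' * y2') + (x2 * y1 + x2' * y1'))
      ≤ b2 * (m + min (X1 * Y2) (X2 * Y1)) := by
    refine mul_le_mul_of_nonneg_left ?_ h2
    rw [hsum]
    exact add_le_add cs1 cs2
  have h4 : (b1 - b2) * (x1 * y2 + x2 * y1) ≤ (b1 - b2) * m :=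
    mul_le_mul_of_nonneg_left br (by linarith)
  nlinarith

/-- decomposition along a unit vector -/
theorem norm_decomp {e : V} (he : ‖e‖ = 1) (x : V) :
    ‖inner ℂ e x‖ ^ 2 + ‖x - inner ℂ e x • e‖ ^ 2 = ‖x‖ ^ 2 := by
  have h1 : inner ℂ (inner ℂ e x • e) (x - inner ℂ e x • e) = 0 := by
    rw [inner_sub_right, inner_smul_left, inner_smul_left, inner_smul_right,
      inner_self_eq_norm_sq_to_K, he]
    simp
  have h2 := @norm_add_sq ℂ V _ _ _ (inner ℂ e x • e) (x - inner ℂ e x • e)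
  rw [h1, add_sub_cancel, norm_smul, he, mul_one] at h2
  simp only [map_zero, mul_zero, add_zero] at h2
  exact h2.symm

theorem inner_decomp {e : V} (he : ‖e‖ = 1) (x : V) :
    inner ℂ e (x - inner ℂ e x • e) = 0 := by
  rw [inner_sub_right, inner_smul_right, inner_self_eq_norm_sq_to_K, he]
  simp

theorem orth_decomp {e : V} (he : ‖e‖ = 1) {x y : V} (hxy : inner ℂ x y = 0) :
    ‖inner ℂ e x‖ * ‖inner ℂ e y‖
      ≤ ‖x - inner ℂ e x • e‖ * ‖y - inner ℂ e y • e‖ := by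
  have h1 : inner ℂ (x - inner ℂ e x • e) (y - inner ℂ e y • e)
      = - (conj (inner ℂ e x) * inner ℂ e y) := by
    rw [inner_sub_left, inner_sub_right, inner_sub_right, inner_smul_right, inner_smul_right,
      inner_smul_left, inner_smul_left, inner_self_eq_norm_sq_to_K, he, hxy]
    have : inner ℂ x e = conj (inner ℂ e x) := (inner_conj_symm x e).symm
    rw [this]
    simp
    ring
  have h2 := norm_inner_le_norm (𝕜 := ℂ) (x - inner ℂ e x • e) (y - inner ℂ e y • e)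
  rw [h1, norm_neg, norm_mul, Complex.norm_conj] at h2
  exact h2

/-- (P) -/
theorem IsCub.pair [FiniteDimensional ℂ V] (h : IsCub Φ) {z x1 y1 x2 y2 : V} (hz : ‖z‖ = 1)
    (h1 : inner ℂ x1 y1 = 0) (h2 : inner ℂ x2 y2 = 0) :
    ‖Φ z x1 y2‖ + ‖Φ z x2 y1‖ ≤ Real.sqrt ((‖x1‖ * ‖y2‖) ^ 2
      + (‖x1‖ * ‖y2‖) * (‖x2‖ * ‖y1‖) + (‖x2‖ * ‖y1‖) ^ 2) := by
  haveI : Nontrivial V := ⟨⟨z, 0, fun hz0 => by rw [hz0, norm_zero] at hz; exact zero_ne_one hz⟩⟩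
  obtain ⟨e, b1, b2, he, hb2, h12, hee, horth, hbd, halt⟩ :=
    two_vals (Φ z) (fun x y => h.s23 z x y)
  have hdec : ∀ x y : V, ‖Φ z x y‖ ≤ b1 * (‖inner ℂ e x‖ * ‖inner ℂ e y‖)
      + b2 * (‖x - inner ℂ e x • e‖ * ‖y - inner ℂ e y • e‖) := by
    intro x y
    set x' := x - inner ℂ e x • e with hx'
    set y' := y - inner ℂ e y • e with hy'
    have ox : inner ℂ e x' = 0 := inner_decomp he x
    have oy : inner ℂ e y' = 0 := inner_decomp he y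
    have ex : x = inner ℂ e x • e + x' := by rw [hx']; abel
    have ey : y = inner ℂ e y • e + y' := by rw [hy']; abel
    have e1 : Φ z x y = inner ℂ e x * inner ℂ e y * b1 + Φ z x' y' := by
      conv_lhs => rw [ex, ey]
      simp only [map_add, map_smul, LinearMap.add_apply, LinearMap.smul_apply, smul_eq_mul, hee,
        horth y' oy]
      have : Φ z x' e = 0 := by rw [h.s23]; exact horth x' ox
      rw [this]
      ring
    rw [e1]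
    refine (norm_add_le _ _).trans (add_le_add ?_ ?_)
    · rw [norm_mul, norm_mul, Complex.norm_real, Real.norm_of_nonneg (hb2.trans h12)]
      exact le_of_eq (mul_comm _ _)
    · have := hbd x' y' ox oy
      linarith
  have hreal := pair_real (norm_nonneg (inner ℂ e x1)) (norm_nonneg (x1 - inner ℂ e x1 • e))
    (norm_nonneg (inner ℂ e x2)) (norm_nonneg (x2 - inner ℂ e x2 • e))
    (norm_nonneg (inner ℂ e y1)) (norm_nonneg (y1 - inner ℂ e y1 • e))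
    (norm_nonneg (inner ℂ e y2)) (norm_nonneg (y2 - inner ℂ e y2 • e))
    (norm_nonneg x1) (norm_nonneg x2) (norm_nonneg y1) (norm_nonneg y2)
    (norm_decomp he x1) (norm_decomp he x2) (norm_decomp he y1) (norm_decomp he y2)
    (orth_decomp he h1) (orth_decomp he h2) hb2 h12
  have hfin : ∀ {al be : ℝ}, 0 ≤ al → 0 ≤ be →
      al * b1 + be * b2 ≤ Real.sqrt (al ^ 2 + al * be + be ^ 2) := by
    intro al be ha hb
    rcases halt with h0 | ⟨e', he', hee', hb'⟩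
    · rw [h0]
      exact h.sing0 hz he hee (hb2.trans h12) ha hb
    · exact h.sing hz he he' hee' hee hb' h12 hb2 (horth e' hee') ha hb
  have hm0 : 0 ≤ ‖x1‖ * ‖y2‖ := by positivity
  have hm1 : 0 ≤ ‖x2‖ * ‖y1‖ := by positivity
  refine (add_le_add (hdec x1 y2) (hdec x2 y1)).trans (hreal.trans ?_)
  refine (hfin (le_trans hm0 (le_max_left _ _)) (le_min hm0 hm1)).trans (le_of_eq ?_)
  congr 1
  rcases le_total (‖x1‖ * ‖y2‖) (‖x2‖ * ‖y1‖) with hc | hc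
  · rw [max_eq_right hc, min_eq_left hc]; ring
  · rw [max_eq_left hc, min_eq_right hc]

/-! ### the determinant form -/

/-- the determinant form -/
def dtf (Φ : V →ₗ[ℂ] V →ₗ[ℂ] V →ₗ[ℂ] ℂ) (x y z : Fin 3 → V) : ℂ :=
  Φ (x 0) (y 1) (z 2) - Φ (x 0) (y 2) (z 1) - Φ (x 1) (y 0) (z 2) + Φ (x 1) (y 2) (z 0)
    + Φ (x 2) (y 0) (z 1) - Φ (x 2) (y 1) (z 0)

/-- the norm on `V³` -/
noncomputable def nm (x : Fin 3 → V) : ℝ := Real.sqrt (‖x 0‖ ^ 2 + ‖x 1‖ ^ 2 + ‖x 2‖ ^ 2)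

theorem nm_sq (x : Fin 3 → V) : nm x ^ 2 = ‖x 0‖ ^ 2 + ‖x 1‖ ^ 2 + ‖x 2‖ ^ 2 :=
  Real.sq_sqrt (by positivity)

theorem nm_nonneg (x : Fin 3 → V) : 0 ≤ nm x := Real.sqrt_nonneg _

theorem IsCub.pair' [FiniteDimensional ℂ V] (h : IsCub Φ) (z : V) {x1 y1 x2 y2 : V}
    (h1 : inner ℂ x1 y1 = 0) (h2 : inner ℂ x2 y2 = 0) :
    ‖Φ z x1 y2‖ + ‖Φ z x2 y1‖ ≤ ‖z‖ * Real.sqrt ((‖x1‖ * ‖y2‖) ^ 2
      + (‖x1‖ * ‖y2‖) * (‖x2‖ * ‖y1‖) + (‖x2‖ * ‖y1‖) ^ 2) := by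
  by_cases hz : z = 0
  · subst hz; simp
  have hz0 : ‖z‖ ≠ 0 := norm_ne_zero_iff.2 hz
  have h3 := h.pair (z := ((‖z‖⁻¹ : ℝ) : ℂ) • z) (by simp [norm_smul, hz0]) h1 h2
  simp only [map_smul, LinearMap.smul_apply, smul_eq_mul, norm_mul,
        Complex.norm_real, norm_inv, norm_norm] at h3
  rw [← mul_add] at h3
  have h4 := mul_le_mul_of_nonneg_left h3 (norm_nonneg z)
  rwa [← mul_assoc, mul_inv_cancel₀ hz0, one_mul] at h4

/-- the case of a zero diagonal -/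
theorem IsCub.thmA0 [FiniteDimensional ℂ V] (h : IsCub Φ) (x y z : Fin 3 → V)
    (hd : ∀ i, inner ℂ (x i) (y i) = 0) : ‖dtf Φ x y z‖ ≤ nm x * nm y * nm z := by
  have e0 : dtf Φ x y z = (Φ (z 2) (x 0) (y 1) - Φ (z 2) (x 1) (y 0))
      - (Φ (z 1) (x 0) (y 2) - Φ (z 1) (x 2) (y 0)) + (Φ (z 0) (x 1) (y 2) - Φ (z 0) (x 2) (y 1)) := by
    have c : ∀ a b d : V, Φ a b d = Φ d a b := fun a b d => by rw [h.s23, h.s12]
    unfold dtf
    rw [c (x 0) (y 1) (z 2), c (x 0) (y 2) (z 1), c (x 1) (y 0) (z 2), c (x 1) (y 2) (z 0),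
      c (x 2) (y 0) (z 1), c (x 2) (y 1) (z 0)]
    ring
  set q2 := Real.sqrt ((‖x 0‖ * ‖y 1‖) ^ 2 + (‖x 0‖ * ‖y 1‖) * (‖x 1‖ * ‖y 0‖)
    + (‖x 1‖ * ‖y 0‖) ^ 2) with hq2
  set q1 := Real.sqrt ((‖x 0‖ * ‖y 2‖) ^ 2 + (‖x 0‖ * ‖y 2‖) * (‖x 2‖ * ‖y 0‖)
    + (‖x 2‖ * ‖y 0‖) ^ 2) with hq1
  set q0 := Real.sqrt ((‖x 1‖ * ‖y 2‖) ^ 2 + (‖x 1‖ * ‖y 2‖) * (‖x 2‖ * ‖y 1‖)
    + (‖x 2‖ * ‖y 1‖) ^ 2) with hq0
  have s2 : q2 ^ 2 = (‖x 0‖ * ‖y 1‖) ^ 2 + (‖x 0‖ * ‖y 1‖) * (‖x 1‖ * ‖y 0‖)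
    + (‖x 1‖ * ‖y 0‖) ^ 2 := Real.sq_sqrt (by positivity)
  have s1 : q1 ^ 2 = (‖x 0‖ * ‖y 2‖) ^ 2 + (‖x 0‖ * ‖y 2‖) * (‖x 2‖ * ‖y 0‖)
    + (‖x 2‖ * ‖y 0‖) ^ 2 := Real.sq_sqrt (by positivity)
  have s0 : q0 ^ 2 = (‖x 1‖ * ‖y 2‖) ^ 2 + (‖x 1‖ * ‖y 2‖) * (‖x 2‖ * ‖y 1‖)
    + (‖x 2‖ * ‖y 1‖) ^ 2 := Real.sq_sqrt (by positivity)
  have n2 : 0 ≤ q2 := Real.sqrt_nonneg _
  have n1 : 0 ≤ q1 := Real.sqrt_nonneg _
  have n0 : 0 ≤ q0 := Real.sqrt_nonneg _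
  have p2 := h.pair' (z 2) (hd 0) (hd 1)
  have p1 := h.pair' (z 1) (hd 0) (hd 2)
  have p0 := h.pair' (z 0) (hd 1) (hd 2)
  rw [← hq2] at p2
  rw [← hq1] at p1
  rw [← hq0] at p0
  have hle : ‖dtf Φ x y z‖ ≤ ‖z 2‖ * q2 + ‖z 1‖ * q1 + ‖z 0‖ * q0 := by
    rw [e0]
    refine (norm_add_le _ _).trans (add_le_add ((norm_sub_le _ _).trans (add_le_add ?_ ?_)) ?_)
    · exact (norm_sub_le _ _).trans p2
    · exact (norm_sub_le _ _).trans p1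
    · exact (norm_sub_le _ _).trans p0
  refine hle.trans (abs_le_of_sq_le_sq' ?_ (by
    have := nm_nonneg x; have := nm_nonneg y; have := nm_nonneg z; positivity)).2
  have hcs : (‖z 2‖ * q2 + ‖z 1‖ * q1 + ‖z 0‖ * q0) ^ 2
      ≤ (‖z 0‖ ^ 2 + ‖z 1‖ ^ 2 + ‖z 2‖ ^ 2) * (q0 ^ 2 + q1 ^ 2 + q2 ^ 2) := by
    nlinarith [sq_nonneg (‖z 2‖ * q1 - ‖z 1‖ * q2), sq_nonneg (‖z 2‖ * q0 - ‖z 0‖ * q2),
      sq_nonneg (‖z 1‖ * q0 - ‖z 0‖ * q1)]
  refine hcs.trans ?_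
  rw [mul_pow, mul_pow, nm_sq, nm_sq, nm_sq, mul_comm]
  refine mul_le_mul_of_nonneg_right ?_ (by positivity)
  rw [s0, s1, s2]
  nlinarith [sq_nonneg (‖x 0‖ * ‖y 0‖ - ‖x 1‖ * ‖y 1‖), sq_nonneg (‖x 0‖ * ‖y 0‖ - ‖x 2‖ * ‖y 2‖),
    sq_nonneg (‖x 1‖ * ‖y 1‖ - ‖x 2‖ * ‖y 2‖)]

end Pool.Agent.Helper76.T5
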